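import Pool.Agent.VD.Cl

set_option autoImplicit false

open Set TopologicalSpace

namespace Pool.Agent.VD

universe u

variable {Z : Type u} [TopologicalSpace Z]

/-- locally constant selection: finitely many clopen sets `{w | (w, z_i) ∈ R}` cover `W`; take the
first `i` -/
theorem IsGood.exists_selection {W : Type u} [TopologicalSpace W] [CompactSpace W]
    {R : Set (W × Z)} (h : IsGood R) : ∃ σ : W → Z, Continuous σ ∧ ∀ w, (w, σ w) ∈ R := by
  classical
  rcases isEmpty_or_nonempty W with hW | ⟨⟨w0⟩⟩
  · exact ⟨fun w => (hW.false w).elim, continuous_of_discreteTopology, fun w => (hW.false w).elim⟩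
  obtain ⟨z0, -⟩ := h.ex w0
  have key : ∀ t : Finset Z, ∃ σ : W → Z, Continuous σ ∧
      ∀ z ∈ t, ∀ w, (w, z) ∈ R → (w, σ w) ∈ R := by
    intro t
    induction t using Finset.induction_on with
    | empty => exact ⟨fun _ => z0, continuous_const, fun z hz => absurd hz (Finset.notMem_empty z)⟩
    | insert z t _ ih =>
      obtain ⟨σ, hσ, h1⟩ := ih
      refine ⟨{w | (w, z) ∈ R}.piecewise (fun _ => z) σ, ?_, ?_⟩
      · refine Continuous.piecewise ?_ continuous_const hσ
        rw [(h.isClopen z).frontier_eq]
        intro a ha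
        exact absurd ha (Set.notMem_empty a)
      · intro z' hz' w hw
        by_cases h2 : (w, z) ∈ R
        · rw [Set.piecewise_eq_of_mem _ _ _ (show w ∈ {w | (w, z) ∈ R} from h2)]
          exact h2
        · rw [Set.piecewise_eq_of_notMem _ _ _ (show w ∉ {w | (w, z) ∈ R} from h2)]
          rcases Finset.mem_insert.1 hz' with rfl | h3
          · exact absurd hw h2
          · exact h1 z' h3 w hw
  obtain ⟨t, ht⟩ := isCompact_univ.elim_finite_subcover (fun z : Z => {w : W | (w, z) ∈ R})
    (fun z => h.opn z) (fun w _ => by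
      obtain ⟨z, hz⟩ := h.ex w
      exact Set.mem_iUnion.2 ⟨z, hz⟩)
  obtain ⟨σ, hσ, h1⟩ := key t
  refine ⟨σ, hσ, fun w => ?_⟩
  obtain ⟨z, hz⟩ := Set.mem_iUnion.1 (ht (Set.mem_univ w))
  obtain ⟨hz1, hz2⟩ := Set.mem_iUnion.1 hz
  exact h1 z hz1 w hz2

/-- the section with bits `false` and selected columns, with a prescribed continuous choice of some
of the columns -/
theorem exists_section {X S J : Type u} [TopologicalSpace X] [CompactSpace X]
    (F : J → Fam Z X S) : ∃ σ : X → Ext F, Continuous σ ∧ ∀ x, base F (σ x) = x := by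
  choose τ hτ hτ' using fun j => (F j).2.exists_selection
  refine ⟨fun x => ⟨((x, fun _ => false), fun j => τ j (x, fun _ => false)), fun j => hτ' j _⟩,
    ?_, fun x => rfl⟩
  refine Continuous.subtype_mk ?_ _
  refine Continuous.prodMk (Continuous.prodMk continuous_id continuous_const) ?_
  exact continuous_pi fun j => (hτ j).comp (Continuous.prodMk continuous_id continuous_const)

end Pool.Agent.VD
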