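import Pool.Agent.VD.Defs

set_option autoImplicit false

open Set TopologicalSpace

namespace Pool.Agent.VD

universe u

variable {Z : Type u} [TopologicalSpace Z]

theorem IsGood.isClopen {W : Type u} [TopologicalSpace W] {R : Set (W × Z)} (h : IsGood R)
    (z : Z) : IsClopen {w | (w, z) ∈ R} := by
  refine ⟨?_, h.opn z⟩
  have h1 : Continuous (fun w : W => (w, z)) := by fun_prop
  exact h.closed.preimage h1

/-- pullback of a good relation along a continuous map -/
theorem IsGood.preimage {W W' : Type u} [TopologicalSpace W] [TopologicalSpace W']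
    {R : Set (W × Z)} (h : IsGood R) (f : W' → W) (hf : Continuous f) :
    IsGood {p : W' × Z | (f p.1, p.2) ∈ R} := by
  refine ⟨?_, fun z => (h.opn z).preimage hf, fun w => h.ex (f w)⟩
  have h1 : Continuous (fun p : W' × Z => (f p.1, p.2)) := by fun_prop
  exact h.closed.preimage h1

theorem isGood_univ {W : Type u} [TopologicalSpace W] [Nonempty Z] :
    IsGood (univ : Set (W × Z)) := by
  refine ⟨isClosed_univ, fun z => ?_, fun w => ?_⟩
  · have h1 : {w : W | (w, z) ∈ (univ : Set (W × Z))} = univ := by
      ext w
      exact ⟨fun _ => mem_univ _, fun _ => mem_univ _⟩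
    rw [h1]
    exact isOpen_univ
  · obtain ⟨z⟩ := (inferInstance : Nonempty Z)
    exact ⟨z, mem_univ _⟩

theorem isClosed_extSet {X S J : Type u} [TopologicalSpace X] (F : J → Fam Z X S) :
    IsClosed (ExtSet F) := by
  have h1 : ExtSet F = ⋂ j, {p : (X × (S → Bool)) × (J → Z) | (p.1, p.2 j) ∈ (F j).1} := by
    ext p
    rw [mem_iInter]
    exact Iff.rfl
  rw [h1]
  refine isClosed_iInter fun j => ?_
  have h2 : Continuous (fun p : (X × (S → Bool)) × (J → Z) => (p.1, p.2 j)) := by fun_prop
  exact (F j).2.closed.preimage h2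

theorem continuous_base {X S J : Type u} [TopologicalSpace X] (F : J → Fam Z X S) :
    Continuous (base F) := by
  unfold base
  fun_prop

theorem ext_compact [CompactSpace Z] {X S J : Type u} [TopologicalSpace X] [CompactSpace X]
    (F : J → Fam Z X S) : CompactSpace (Ext F) := by
  exact isCompact_iff_compactSpace.1 (isClosed_extSet F).isCompact

theorem ext_t2 [T2Space Z] {X S J : Type u} [TopologicalSpace X] [T2Space X]
    (F : J → Fam Z X S) : T2Space (Ext F) := by
  infer_instance

theorem ext_td [TotallyDisconnectedSpace Z] {X S J : Type u} [TopologicalSpace X]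
    [TotallyDisconnectedSpace X] (F : J → Fam Z X S) : TotallyDisconnectedSpace (Ext F) := by
  infer_instance

end Pool.Agent.VD
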