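import Pool.Agent.VD.TwDefs

set_option autoImplicit false

open Set TopologicalSpace

namespace Pool.Agent.VD

universe u

variable {Z : Type u} [TopologicalSpace Z] (c : Pieces Z)

theorem down_refl (n : ℕ) (x : K c n) : down c (le_refl n) x = x := by
  unfold down
  rw [Nat.leRec_self]

theorem down_succ {n m : ℕ} (h : n ≤ m) (x : K c (m + 1)) :
    down c (h.trans (Nat.le_succ m)) x = down c h (prj c m x) := by
  unfold down
  rw [Nat.leRec_succ _ _ h]

theorem down_down {n m k : ℕ} (h : n ≤ m) (h' : m ≤ k) (x : K c k) :
    down c h (down c h' x) = down c (h.trans h') x := by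
  induction k, h' using Nat.le_induction with
  | base => rw [down_refl]
  | succ k hk ih =>
    rw [down_succ c hk x, ih (prj c k x), ← down_succ c (h.trans hk) x]

theorem down_thread {n m : ℕ} (h : n ≤ m) (x : Lim c) : down c h (x.1 m) = x.1 n := by
  induction m, h using Nat.le_induction with
  | base => rw [down_refl]
  | succ m hm ih => rw [down_succ c hm (x.1 (m + 1)), x.2 m, ih]

end Pool.Agent.VD
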