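import Pool.Agent.VD.TwDefs
import Pool.Agent.VD.Cl
import Pool.Agent.VD.Dn

set_option autoImplicit false

open Set TopologicalSpace

namespace Pool.Agent.VD

universe u

variable {Z : Type u} [TopologicalSpace Z] (c : Pieces Z)

include c in
/-- points are separated by clopen sets (`c.cover`, `c.notMem`, `c.clopen`) -/
theorem Pieces.totallyDisconnected : TotallyDisconnectedSpace Z := by
  have h : TotallySeparatedSpace Z := by
    rw [totallySeparatedSpace_iff_exists_isClopen]
    intro x y hxy
    obtain ⟨a, ha⟩ := c.cover y x hxy
    exact ⟨c.V y a, c.clopen y a, ha, c.notMem y a⟩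
  infer_instance

theorem K_compact [CompactSpace Z] (n : ℕ) : CompactSpace (K c n) := by
  induction n with
  | zero => exact (inferInstance : CompactSpace PUnit)
  | succ n ih =>
    have := ih
    exact ext_compact (Z := Z) (X := K c n) (S := Tg c n)
      (fun j : BigIdx Z (K c n) (Tg c n) => j.2)

theorem K_t2 [T2Space Z] (n : ℕ) : T2Space (K c n) := by
  induction n with
  | zero => exact (inferInstance : T2Space PUnit)
  | succ n ih =>
    have := ih
    exact ext_t2 (Z := Z) (X := K c n) (S := Tg c n)
      (fun j : BigIdx Z (K c n) (Tg c n) => j.2)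

theorem K_td (n : ℕ) : TotallyDisconnectedSpace (K c n) := by
  have := c.totallyDisconnected
  induction n with
  | zero => exact (inferInstance : TotallyDisconnectedSpace PUnit)
  | succ n ih =>
    have := ih
    exact ext_td (Z := Z) (X := K c n) (S := Tg c n)
      (fun j : BigIdx Z (K c n) (Tg c n) => j.2)

theorem Lim_t2 [T2Space Z] : T2Space (Lim c) := by
  have := fun n => K_t2 c n
  exact (inferInstance : T2Space {x : ∀ n, K c n // ∀ n, prj c n (x (n + 1)) = x n})

theorem Lim_td : TotallyDisconnectedSpace (Lim c) := by
  have := fun n => K_td c n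
  exact (inferInstance :
    TotallyDisconnectedSpace {x : ∀ n, K c n // ∀ n, prj c n (x (n + 1)) = x n})

private theorem continuous_prj (n : ℕ) : Continuous (prj c n) :=
  continuous_base (X := K c n) (fun j : BigIdx Z (K c n) (Tg c n) => j.2)

/-- closed subset of the product -/
theorem Lim_compact [CompactSpace Z] [T2Space Z] : CompactSpace (Lim c) := by
  have := fun n => K_compact c n
  have := fun n => K_t2 c n
  have h : IsClosed {x : ∀ n, K c n | ∀ n, prj c n (x (n + 1)) = x n} := by
    rw [ofPred_forall]
    exact isClosed_iInter fun n => isClosed_eq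
      ((continuous_prj c n).comp (continuous_apply (n + 1))) (continuous_apply n)
  exact (isCompact_iff_compactSpace.1 h.isCompact :
    CompactSpace {x : ∀ n, K c n // ∀ n, prj c n (x (n + 1)) = x n})

end Pool.Agent.VD
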