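import Pool.Agent.VD.TwDefs
import Pool.Agent.VD.Sel
import Pool.Agent.VD.Tk

set_option autoImplicit false

open Set TopologicalSpace

namespace Pool.Agent.VD

universe u

variable {Z : Type u} [TopologicalSpace Z] (c : Pieces Z)

/-- `r` is the value at the full column `(unit, univ)` of level `1` (`isGood_univ`); `g z` has value
`z` there, bits `false` and selected values (`IsGood.exists_selection`) at the other columns of
level `1`, and is continued by the sections `K n → K (n + 1)` (`exists_section`). -/
theorem exists_retraction [CompactSpace Z] [Nonempty Z] : ∃ (g : Z → Lim c) (r : Lim c → Z),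
    Continuous g ∧ Continuous r ∧ ∀ z, r (g z) = z := by
  classical
  have hK : ∀ n, CompactSpace (K c n) := K_compact c
  -- sections of the projections
  have hsec : ∀ n, ∃ σ : K c n → K c (n + 1), Continuous σ ∧ ∀ x, prj c n (σ x) = x := by
    intro n
    have := hK n
    exact exists_section (X := K c n) (S := Tg c n) (fun j : BigIdx Z (K c n) (Tg c n) => j.2)
  choose σ hσ hσ' using hsec
  -- the full column of level 1
  let R0 : Fam Z (K c 0) (Tg c 0) := ⟨univ, isGood_univ⟩
  let j0 : BigIdx Z (K c 0) (Tg c 0) := (PUnit.unit, R0)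
  -- the first step
  have hsel : ∀ j : BigIdx Z (K c 0) (Tg c 0), ∃ τ : K c 0 × (Tg c 0 → Bool) → Z,
      Continuous τ ∧ ∀ w, (w, τ w) ∈ j.2.1 := by
    intro j
    have := hK 0
    exact j.2.2.exists_selection
  choose τ hτ hτ' using hsel
  let w0 : K c 0 × (Tg c 0 → Bool) := ((PUnit.unit : PUnit), fun _ => false)
  let v : Z → BigIdx Z (K c 0) (Tg c 0) → Z := fun z j => if j = j0 then z else τ j w0
  have hv : ∀ z j, (w0, v z j) ∈ j.2.1 := by
    intro z j
    by_cases h : j = j0
    · subst h
      exact Set.mem_univ _
    · simp only [v, if_neg h]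
      exact hτ' j w0
  have hvc : Continuous v := by
    refine continuous_pi fun j => ?_
    by_cases h : j = j0
    · simp only [v, if_pos h]
      exact continuous_id
    · simp only [v, if_neg h]
      exact continuous_const
  let G1 : Z → K c 1 := fun z =>
    (⟨(w0, v z), fun j => hv z j⟩ :
      Ext (Z := Z) (X := K c 0) (S := Tg c 0) (fun j : BigIdx Z (K c 0) (Tg c 0) => j.2))
  have hG1 : Continuous G1 := by
    refine Continuous.subtype_mk ?_ _
    exact Continuous.prodMk continuous_const hvc
  -- the levels
  let H : ∀ n, {f : Z → K c (n + 1) // Continuous f} := fun n =>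
    Nat.rec ⟨G1, hG1⟩ (fun n f => ⟨fun z => σ (n + 1) (f.1 z), (hσ (n + 1)).comp f.2⟩) n
  let G : ∀ n, Z → K c n := fun n =>
    match n with
    | 0 => fun _ => (PUnit.unit : PUnit)
    | n + 1 => (H n).1
  have hG : ∀ n, Continuous (G n) := by
    intro n
    cases n with
    | zero => exact continuous_const
    | succ n => exact (H n).2
  have hcomp : ∀ z n, prj c n (G (n + 1) z) = G n z := by
    intro z n
    cases n with
    | zero => rfl
    | succ n => exact hσ' (n + 1) ((H n).1 z)
  refine ⟨fun z => ⟨fun n => G n z, hcomp z⟩,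
    fun x => (show Ext (Z := Z) (X := K c 0) (S := Tg c 0)
      (fun j : BigIdx Z (K c 0) (Tg c 0) => j.2) from x.1 1).1.2 j0, ?_, ?_, ?_⟩
  · refine Continuous.subtype_mk ?_ _
    exact continuous_pi hG
  · have h1 : Continuous fun x : Lim c => x.1 1 :=
      (continuous_apply 1).comp continuous_subtype_val
    have h2 : Continuous fun p : Ext (Z := Z) (X := K c 0) (S := Tg c 0)
        (fun j : BigIdx Z (K c 0) (Tg c 0) => j.2) => p.1.2 j0 :=
      (continuous_apply j0).comp (continuous_snd.comp continuous_subtype_val)
    exact h2.comp h1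
  · intro z
    change v z j0 = z
    simp only [v, if_pos rfl]

end Pool.Agent.VD
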