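import Pool.Agent.VD.Hom
import Pool.Agent.VD.Ret
import Pool.Agent.VD.Tk

set_option autoImplicit false

open Set TopologicalSpace

namespace Pool.Agent.VD

universe u

/-- MAIN: a nonempty compact Hausdorff space `E` such that every `E \ {e}` has a point finite cover
by clopen subsets of `E` is a retract of a homogeneous compact Hausdorff zero-dimensional space. -/
theorem main {E kap : Type u} [TopologicalSpace E] [CompactSpace E] [T2Space E] [Nonempty E]
    (V : E → kap → Set E) (h1 : ∀ e a, IsClopen (V e a)) (h2 : ∀ e a, e ∉ V e a)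
    (h3 : ∀ e c, c ≠ e → ∃ a, c ∈ V e a) (h4 : ∀ e c, {a | c ∈ V e a}.Finite) :
    ∃ (K : Type u) (_ : TopologicalSpace K), CompactSpace K ∧ T2Space K ∧
      TotallyDisconnectedSpace K ∧ (∀ x y : K, ∃ h : K ≃ₜ K, h x = y) ∧
      ∃ (e : E → K) (r : K → E), Continuous e ∧ Continuous r ∧ ∀ z, r (e z) = z :=
  let c : Pieces E := ⟨kap, V, h1, h2, h3, h4⟩
  ⟨Lim c, inferInstance, Lim_compact c, Lim_t2 c, Lim_td c, fun x y => homogeneous c y x,
    exists_retraction c⟩

end Pool.Agent.VD
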