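import Mathlib
import Pool.Agent.VD.Main
import Pool.Agent.Helper68.TE.Sum

/-! Applications of `main`. -/

set_option autoImplicit false

universe u v w

open Set Topology

namespace Pool.Agent.VD

open Pool.Agent.Helper68.TE (InR Homog HasLEmbedding LEmbedded TEmbedded HasTEmbedding Cp)

/-- The one-point compactification of a discrete space is a retract of a totally disconnected
homogeneous compact space. -/
theorem onePoint (ι : Type u) [TopologicalSpace ι] [DiscreteTopology ι] :
    ∃ (K : Type u) (_ : TopologicalSpace K), CompactSpace K ∧ T2Space K ∧
      TotallyDisconnectedSpace K ∧ (∀ x y : K, ∃ h : K ≃ₜ K, h x = y) ∧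
      ∃ (e : OnePoint ι → K) (r : K → OnePoint ι), Continuous e ∧ Continuous r ∧
        ∀ z, r (e z) = z := by
  classical
  have hcl : ∀ a : ι, IsClopen ({(a : OnePoint ι)} : Set (OnePoint ι)) := by
    intro a
    refine ⟨isClosed_singleton, ?_⟩
    rw [← Set.image_singleton]
    exact OnePoint.isOpen_image_coe.2 (isOpen_discrete _)
  refine main (E := OnePoint ι) (kap := ι)
    (fun e a => e.elim ({(a : OnePoint ι)}) (fun b => if b = a then {(b : OnePoint ι)}ᶜ else ∅))
    ?_ ?_ ?_ ?_
  · intro e a
    induction e with
    | infty => exact hcl a
    | coe b =>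
      show IsClopen (if b = a then _ else _)
      split_ifs
      · exact (hcl b).compl
      · exact isClopen_empty
  · intro e a
    induction e with
    | infty =>
      show OnePoint.infty ∉ ({(a : OnePoint ι)} : Set (OnePoint ι))
      simp
    | coe b =>
      show (b : OnePoint ι) ∉ (if b = a then ({(b : OnePoint ι)}ᶜ : Set (OnePoint ι)) else ∅)
      split_ifs <;> simp
  · intro e c hc
    induction e with
    | infty =>
      induction c with
      | infty => exact absurd rfl hc
      | coe c => exact ⟨c, rfl⟩
    | coe b =>
      refine ⟨b, ?_⟩
      show c ∈ (if b = b then ({(b : OnePoint ι)}ᶜ : Set (OnePoint ι)) else ∅)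
      rw [if_pos rfl]
      exact hc
  · intro e c
    induction e with
    | infty =>
      refine Set.Subsingleton.finite ?_
      intro a ha b hb
      have h1 : c = (a : OnePoint ι) := ha
      have h2 : c = (b : OnePoint ι) := hb
      exact OnePoint.coe_injective (h1.symm.trans h2)
    | coe b =>
      refine (Set.finite_singleton b).subset ?_
      intro a ha
      have h1 : c ∈ (if b = a then ({(b : OnePoint ι)}ᶜ : Set (OnePoint ι)) else ∅) := ha
      by_contra h
      rw [if_neg (fun h' => h h'.symm)] at h1
      exact h1

end Pool.Agent.VD
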