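import Mathlib
import Pool.Agent.VD.App

/-! The class of spaces which are retracts of homogeneous compacta. -/

set_option autoImplicit false

universe u v w

open Set Topology

namespace Pool.Agent.VD

open Pool.Agent.Helper68.TE (InR Homog)

theorem inR_pf {E κ : Type u} [TopologicalSpace E] [CompactSpace E] [T2Space E] [Nonempty E]
    (V : E → κ → Set E) (h1 : ∀ e a, IsClopen (V e a)) (h2 : ∀ e a, e ∉ V e a)
    (h3 : ∀ e c, c ≠ e → ∃ a, c ∈ V e a) (h4 : ∀ e c, {a | c ∈ V e a}.Finite) : InR E := by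
  obtain ⟨K, tK, k1, k2, -, k3, e, r, he, hr, hre⟩ := main V h1 h2 h3 h4
  exact ⟨K, tK, k1, k2, k3, e, r, he, hr, hre⟩

private theorem arc_mem (t : ℝ) (h0 : 0 ≤ t) (h1 : t ≤ 1) :
    (⟨2 * t - 1, Real.sqrt (1 - (2 * t - 1) ^ 2)⟩ : ℂ) ∈ Submonoid.unitSphere ℂ := by
  have h2 : (0 : ℝ) ≤ 1 - (2 * t - 1) ^ 2 := by nlinarith
  have h3 : ‖(⟨2 * t - 1, Real.sqrt (1 - (2 * t - 1) ^ 2)⟩ : ℂ)‖ = 1 := by
    rw [Complex.norm_def, Complex.normSq_mk, Real.mul_self_sqrt h2]
    rw [show (2 * t - 1) * (2 * t - 1) + (1 - (2 * t - 1) ^ 2) = 1 by ring, Real.sqrt_one]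
  exact mem_sphere_zero_iff_norm.2 h3

theorem inR_interval (X : Type u) [TopologicalSpace X] (f : X ≃ₜ unitInterval) : InR X := by
  refine ⟨ULift.{u} Circle, inferInstance, inferInstance, inferInstance, ?_,
    fun x => ⟨⟨⟨2 * (f x : ℝ) - 1, Real.sqrt (1 - (2 * (f x : ℝ) - 1) ^ 2)⟩,
      arc_mem _ (f x).2.1 (f x).2.2⟩⟩,
    fun z => f.symm (projIcc 0 1 zero_le_one ((((z.down : Circle) : ℂ).re + 1) / 2)), ?_, ?_, ?_⟩
  · intro x y
    refine ⟨Homeomorph.ulift.trans ((Homeomorph.mulLeft (y.down / x.down)).trans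
      Homeomorph.ulift.symm), ?_⟩
    apply ULift.ext
    show (y.down / x.down) * x.down = y.down
    exact div_mul_cancel y.down x.down
  · refine continuous_uliftUp.comp (Continuous.subtype_mk ?_ _)
    have h1 : Continuous fun x : X => (2 * (f x : ℝ) - 1) :=
      (continuous_const.mul (continuous_subtype_val.comp f.continuous)).sub continuous_const
    have h2 : Continuous fun x : X => Real.sqrt (1 - (2 * (f x : ℝ) - 1) ^ 2) :=
      (continuous_const.sub (h1.pow 2)).sqrt
    exact Complex.equivRealProdCLM.symm.continuous.comp (h1.prodMk h2)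
  · refine f.symm.continuous.comp (continuous_projIcc.comp ?_)
    refine Continuous.div_const ?_ _
    refine Continuous.add ?_ continuous_const
    exact Complex.continuous_re.comp (continuous_subtype_val.comp continuous_uliftDown)
  · intro x
    have h3 : ((2 * (f x : ℝ) - 1) + 1) / 2 = (f x : ℝ) := by ring
    show f.symm (projIcc 0 1 zero_le_one (((2 * (f x : ℝ) - 1) + 1) / 2)) = x
    rw [h3, projIcc_val, f.symm_apply_apply]

end Pool.Agent.VD
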