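import Mathlib
import Pool.Agent.VD.App2

/-! l-embeddings in products. -/

set_option autoImplicit false

universe u v w

open Set Topology

namespace Pool.Agent.VD

open Pool.Agent.Helper68.TE (InR Homog HasLEmbedding LEmbedded Cp)

/-- If `Z` is l-embedded in `X` and `X` is a retract of `K`, then `Z` has an l-embedding
in `K`. -/
theorem lEmb_comp {Z X K : Type u} [TopologicalSpace Z] [TopologicalSpace X] [TopologicalSpace K]
    (hZ : HasLEmbedding Z X) (e : X → K) (r : K → X) (he : Continuous e) (hr : Continuous r)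
    (h : ∀ x, r (e x) = x) : HasLEmbedding Z K := by
  obtain ⟨i, hi, φ, hφ, hext, hlin⟩ := hZ
  have hemb : IsEmbedding e := Function.LeftInverse.isEmbedding h hr he
  have hj : ∀ y : range i, e y.1 ∈ range (e ∘ i) := by
    rintro ⟨_, z, rfl⟩
    exact ⟨z, rfl⟩
  let j : range i → range (e ∘ i) := fun y => ⟨e y.1, hj y⟩
  have hjc : Continuous j := (he.comp continuous_subtype_val).subtype_mk _
  let ρ : Cp (range (e ∘ i)) → Cp (range i) := fun f => ⟨fun y => f.1 (j y), f.2.comp hjc⟩
  have hρ : Continuous ρ := by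
    refine Continuous.subtype_mk ?_ _
    exact continuous_pi (fun y => (continuous_apply (j y)).comp continuous_subtype_val)
  refine ⟨e ∘ i, hemb.comp hi, fun f => ⟨fun k => (φ (ρ f)).1 (r k), (φ (ρ f)).2.comp hr⟩,
    ?_, ?_, ?_⟩
  · refine Continuous.subtype_mk ?_ _
    exact continuous_pi (fun k => (continuous_apply (r k)).comp
      (continuous_subtype_val.comp (hφ.comp hρ)))
  · rintro f ⟨_, z, rfl⟩
    have h1 := hext (ρ f) ⟨i z, z, rfl⟩
    show (φ (ρ f)).1 (r (e (i z))) = f.1 ⟨e (i z), z, rfl⟩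
    rw [h]
    exact h1
  · intro a b f g k hk x
    exact hlin a b (ρ f) (ρ g) (ρ k) (fun y => hk (j y)) (r x)

end Pool.Agent.VD
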