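import Pool.Agent.VD.BitDefs

set_option autoImplicit false

open Set TopologicalSpace

namespace Pool.Agent.VD

universe u

section

variable {S J I R T : Type u} (θ : T ≃ (S ⊕ (J × I × ℕ)) ⊕ R) (q0 : T → Bool) (e0 : S → Bool)

private theorem rcv_S (b : S → Bool) (D : Set (J × I)) (s' : (J × I × ℕ) ⊕ R → Bool) (σ : S) :
    rcv θ q0 e0 b D s' (θ.symm (.inl (.inl σ))) =
      xor (b σ) (xor (q0 (θ.symm (.inl (.inl σ)))) (e0 σ)) := by
  unfold rcv
  simp only [Equiv.apply_symm_apply]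

private theorem rcv_in (b : S → Bool) (D : Set (J × I)) (s' : (J × I × ℕ) ⊕ R → Bool) (j : J)
    (i : I) (k : ℕ) (h : (j, i) ∈ D) :
    rcv θ q0 e0 b D s' (θ.symm (.inl (.inr (j, i, k + 1)))) = s' (.inl (j, i, k)) := by
  unfold rcv
  simp only [Equiv.apply_symm_apply]
  exact if_pos h

private theorem rcv_in0 (b : S → Bool) (D : Set (J × I)) (s' : (J × I × ℕ) ⊕ R → Bool) (j : J)
    (i : I) (h : (j, i) ∈ D) :
    rcv θ q0 e0 b D s' (θ.symm (.inl (.inr (j, i, 0)))) =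
      !(q0 (θ.symm (.inl (.inr (j, i, 0))))) := by
  unfold rcv
  simp only [Equiv.apply_symm_apply]
  exact if_pos h

private theorem rcv_out (b : S → Bool) (D : Set (J × I)) (s' : (J × I × ℕ) ⊕ R → Bool) (j : J)
    (i : I) (k : ℕ) (h : (j, i) ∉ D) :
    rcv θ q0 e0 b D s' (θ.symm (.inl (.inr (j, i, k)))) = s' (.inl (j, i, k)) := by
  unfold rcv
  simp only [Equiv.apply_symm_apply]
  exact if_neg h

private theorem rcv_R (b : S → Bool) (D : Set (J × I)) (s' : (J × I × ℕ) ⊕ R → Bool) (r : R) :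
    rcv θ q0 e0 b D s' (θ.symm (.inr r)) = s' (.inr r) := by
  unfold rcv
  simp only [Equiv.apply_symm_apply]

theorem rho_self : rho θ q0 e0 q0 = e0 := by
  funext σ
  unfold rho
  cases q0 (θ.symm (.inl (.inl σ))) <;> cases e0 σ <;> rfl

theorem rho_rcv (b : S → Bool) (D : Set (J × I)) (s' : (J × I × ℕ) ⊕ R → Bool) :
    rho θ q0 e0 (rcv θ q0 e0 b D s') = b := by
  funext σ
  unfold rho
  rw [rcv_S]
  cases q0 (θ.symm (.inl (.inl σ))) <;> cases e0 σ <;> cases b σ <;> rfl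

theorem rst_rcv (b : S → Bool) (D : Set (J × I)) (s' : (J × I × ℕ) ⊕ R → Bool) :
    rst θ D (rcv θ q0 e0 b D s') = s' := by
  classical
  funext x
  rcases x with ⟨j, i, k⟩ | r
  · by_cases h : (j, i) ∈ D
    · show (if (j, i) ∈ D then rcv θ q0 e0 b D s' (θ.symm (.inl (.inr (j, i, k + 1))))
        else rcv θ q0 e0 b D s' (θ.symm (.inl (.inr (j, i, k))))) = _
      rw [if_pos h, rcv_in θ q0 e0 b D s' j i k h]
    · show (if (j, i) ∈ D then rcv θ q0 e0 b D s' (θ.symm (.inl (.inr (j, i, k + 1))))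
        else rcv θ q0 e0 b D s' (θ.symm (.inl (.inr (j, i, k))))) = _
      rw [if_neg h, rcv_out θ q0 e0 b D s' j i k h]
  · exact rcv_R θ q0 e0 b D s' r

theorem rcv_zero (b : S → Bool) (D : Set (J × I)) (s' : (J × I × ℕ) ⊕ R → Bool) (j : J) (i : I)
    (h : (j, i) ∈ D) :
    rcv θ q0 e0 b D s' (θ.symm (.inl (.inr (j, i, 0)))) =
      !(q0 (θ.symm (.inl (.inr (j, i, 0))))) := by
  exact rcv_in0 θ q0 e0 b D s' j i h

theorem rcv_rst (D : Set (J × I)) (s : T → Bool)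
    (h : ∀ j i, (j, i) ∈ D →
      s (θ.symm (.inl (.inr (j, i, 0)))) = !(q0 (θ.symm (.inl (.inr (j, i, 0)))))) :
    rcv θ q0 e0 (rho θ q0 e0 s) D (rst θ D s) = s := by
  funext τ
  obtain ⟨x, rfl⟩ := θ.symm.surjective τ
  rcases x with (σ | ⟨j, i, k⟩) | r
  · rw [rcv_S]
    unfold rho
    cases q0 (θ.symm (.inl (.inl σ))) <;> cases e0 σ <;> cases s (θ.symm (.inl (.inl σ))) <;> rfl
  · by_cases hD : (j, i) ∈ D
    · cases k with
      | zero => rw [rcv_in0 θ q0 e0 _ D _ j i hD, h j i hD]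
      | succ k =>
        rw [rcv_in θ q0 e0 _ D _ j i k hD]
        exact if_pos hD
    · rw [rcv_out θ q0 e0 _ D _ j i k hD]
      exact if_neg hD
  · rw [rcv_R]
    rfl

end

end Pool.Agent.VD
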