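import Pool.Agent.VD.BitDefs

set_option autoImplicit false

open Set TopologicalSpace

namespace Pool.Agent.VD

universe u

section

variable {S J I R T : Type u} (θ : T ≃ (S ⊕ (J × I × ℕ)) ⊕ R) (q0 : T → Bool) (e0 : S → Bool)

theorem continuous_rho : Continuous (rho θ q0 e0) := by
  refine continuous_pi fun σ => ?_
  exact (continuous_of_discreteTopology
    (f := fun x : Bool => xor x (xor (q0 (θ.symm (.inl (.inl σ)))) (e0 σ)))).comp
    (continuous_apply (θ.symm (.inl (.inl σ))))

/-- every coordinate is a case distinction over a clopen set -/
theorem continuous_rst {W : Type u} [TopologicalSpace W] (D : W → Set (J × I))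
    (hD : ∀ a, IsClopen {w | a ∈ D w}) (s : W → T → Bool) (hs : Continuous s) :
    Continuous (fun w => rst θ (D w) (s w)) := by
  classical
  refine continuous_pi fun x => ?_
  rcases x with ⟨j, i, k⟩ | r
  · have h1 : Continuous fun w => if (j, i) ∈ D w then s w (θ.symm (.inl (.inr (j, i, k + 1))))
        else s w (θ.symm (.inl (.inr (j, i, k)))) := by
      refine Continuous.if (fun a ha => ?_) ((continuous_apply _).comp hs)
        ((continuous_apply _).comp hs)
      rw [(hD (j, i)).frontier_eq] at ha
      exact absurd ha (Set.notMem_empty a)
    exact h1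
  · exact (continuous_apply _).comp hs

theorem continuous_rcv {W : Type u} [TopologicalSpace W] (b : W → S → Bool) (hb : Continuous b)
    (D : W → Set (J × I)) (hD : ∀ a, IsClopen {w | a ∈ D w})
    (s' : W → (J × I × ℕ) ⊕ R → Bool) (hs : Continuous s') :
    Continuous (fun w => rcv θ q0 e0 (b w) (D w) (s' w)) := by
  classical
  refine continuous_pi fun τ => ?_
  obtain ⟨x, rfl⟩ := θ.symm.surjective τ
  rcases x with (σ | ⟨j, i, k⟩) | r
  · have h1 : Continuous fun w => xor (b w σ) (xor (q0 (θ.symm (.inl (.inl σ)))) (e0 σ)) :=
      (continuous_of_discreteTopology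
        (f := fun x : Bool => xor x (xor (q0 (θ.symm (.inl (.inl σ)))) (e0 σ)))).comp
        ((continuous_apply σ).comp hb)
    convert h1 using 2 with w
    unfold rcv
    simp only [Equiv.apply_symm_apply]
  · have h1 : Continuous fun w => if (j, i) ∈ D w then
        (match k with
          | 0 => !(q0 (θ.symm (.inl (.inr (j, i, k)))))
          | k + 1 => s' w (.inl (j, i, k)))
        else s' w (.inl (j, i, k)) := by
      refine Continuous.if (fun a ha => ?_) ?_ ((continuous_apply _).comp hs)
      · rw [(hD (j, i)).frontier_eq] at ha
        exact absurd ha (Set.notMem_empty a)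
      · cases k with
        | zero => exact continuous_const
        | succ k => exact (continuous_apply _).comp hs
    convert h1 using 2 with w
    unfold rcv
    simp only [Equiv.apply_symm_apply]
    rfl
  · have h1 : Continuous fun w => s' w (.inr r) := (continuous_apply _).comp hs
    convert h1 using 2 with w
    unfold rcv
    simp only [Equiv.apply_symm_apply]

end

end Pool.Agent.VD
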