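import Mathlib

set_option autoImplicit false

open Set TopologicalSpace

namespace Pool.Agent.VD

universe u

section

variable {S J I R T : Type u} (θ : T ≃ (S ⊕ (J × I × ℕ)) ⊕ R) (q0 : T → Bool) (e0 : S → Bool)

/-- the `S`-bits of `s`, flipped so that `q0` becomes `e0` -/
def rho (s : T → Bool) : S → Bool := fun σ =>
  xor (s (θ.symm (.inl (.inl σ)))) (xor (q0 (θ.symm (.inl (.inl σ)))) (e0 σ))

open Classical in
/-- the remaining bits; the bits of `(j, i)` are shifted down if `(j, i) ∈ D` -/
noncomputable def rst (D : Set (J × I)) (s : T → Bool) : (J × I × ℕ) ⊕ R → Bool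
  | .inl (j, i, k) =>
      if (j, i) ∈ D then s (θ.symm (.inl (.inr (j, i, k + 1))))
      else s (θ.symm (.inl (.inr (j, i, k))))
  | .inr r => s (θ.symm (.inr r))

open Classical in
/-- the bits recovered from `rho`, the set `D` and `rst` -/
noncomputable def rcv (b : S → Bool) (D : Set (J × I)) (s' : (J × I × ℕ) ⊕ R → Bool) :
    T → Bool :=
  fun τ => match θ τ with
    | .inl (.inl σ) => xor (b σ) (xor (q0 τ) (e0 σ))
    | .inl (.inr (j, i, k)) =>
        if (j, i) ∈ D then
          (match k with
            | 0 => !(q0 τ)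
            | k + 1 => s' (.inl (j, i, k)))
        else s' (.inl (j, i, k))
    | .inr r => s' (.inr r)

end

end Pool.Agent.VD
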