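import Pool.Agent.VD.Prt

set_option autoImplicit false

open Set TopologicalSpace

namespace Pool.Agent.VD

universe u

variable {Z : Type u} [TopologicalSpace Z] (c : Pieces Z)

section CoreAux

variable {X S J R T I' R' : Type u} [TopologicalSpace X]
    (θ : T ≃ (S ⊕ (J × c.I × ℕ)) ⊕ R) (F : J → Fam Z X S) (G : I' → Fam Z X T)
    (η : I' ≃ J ⊕ R') (q0 : T → Bool) (e0 : S → Bool) (z : J → Z)

/-- the hypothesis on the partner columns -/
private def CoHyp : Prop :=
  ∀ j, (G (η.symm (.inl j))).1 = partnerRel c (rho θ q0 e0) q0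
    (fun a => θ.symm (.inl (.inr (j, a, 0)))) (F j).1 (z j)

/-- the switched blocks -/
private def coD (y : Ext F) : Set (J × c.I) :=
  {a | (y.1.1, z a.1) ∈ (F a.1).1 ∧ y.1.2 a.1 ∈ c.V (z a.1) a.2}

private theorem coD_clopen (a : J × c.I) : IsClopen {y : Ext F | a ∈ coD c F z y} := by
  have h1 : IsClopen {y : Ext F | (y.1.1, z a.1) ∈ (F a.1).1} := by
    have hc : Continuous fun y : Ext F => y.1.1 := continuous_fst.comp continuous_subtype_val
    exact ((F a.1).2.isClopen (z a.1)).preimage hc
  have h2 : IsClopen {y : Ext F | y.1.2 a.1 ∈ c.V (z a.1) a.2} := by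
    have hc : Continuous fun y : Ext F => y.1.2 a.1 :=
      (continuous_apply a.1).comp (continuous_snd.comp continuous_subtype_val)
    exact (c.clopen (z a.1) a.2).preimage hc
  exact h1.inter h2

variable {θ F G η q0 e0 z} (hG : CoHyp c θ F G η q0 e0 z)

/-- the map of the partner columns -/
private def coU (p : Ext G) : Ext F :=
  ⟨((p.1.1.1, rho θ q0 e0 p.1.1.2), fun j => p.1.2 (η.symm (.inl j))), by
    intro j
    have h := p.2 (η.symm (.inl j))
    rw [hG j] at h
    exact h.1⟩

private theorem coU_cont : Continuous (coU c hG) := by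
  have h1 : Continuous fun p : Ext G => p.1.1.1 :=
    continuous_fst.comp (continuous_fst.comp continuous_subtype_val)
  have h2 : Continuous fun p : Ext G => p.1.1.2 :=
    continuous_snd.comp (continuous_fst.comp continuous_subtype_val)
  have h3 : Continuous fun p : Ext G => p.1.2 := continuous_snd.comp continuous_subtype_val
  refine Continuous.subtype_mk ?_ _
  refine (h1.prodMk ((continuous_rho θ q0 e0).comp h2)).prodMk ?_
  refine continuous_pi fun j => ?_
  exact (continuous_apply (η.symm (.inl j))).comp h3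

/-- the switch bits of the blocks in `D` -/
private theorem co_switch (p : Ext G) (j : J) (i : c.I) (h : (j, i) ∈ coD c F z (coU c hG p)) :
    p.1.1.2 (θ.symm (.inl (.inr (j, i, 0)))) = !(q0 (θ.symm (.inl (.inr (j, i, 0))))) := by
  have h1 := p.2 (η.symm (.inl j))
  rw [hG j] at h1
  exact h1.2 h.1 i h.2

variable (θ F q0 e0 z) in
/-- recovering the base point and the bits -/
private noncomputable def coP (w : Ext F × ((J × c.I × ℕ) ⊕ R → Bool)) : X × (T → Bool) :=
  (w.1.1.1.1, rcv θ q0 e0 w.1.1.1.2 (coD c F z w.1) w.2)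

variable (θ F q0 e0 z) in
private theorem coP_cont : Continuous (coP c θ F q0 e0 z) := by
  have h0 : Continuous fun w : Ext F × ((J × c.I × ℕ) ⊕ R → Bool) => w.1.1.1 :=
    continuous_fst.comp (continuous_subtype_val.comp continuous_fst)
  have h1 : Continuous fun w : Ext F × ((J × c.I × ℕ) ⊕ R → Bool) => w.1.1.1.1 :=
    continuous_fst.comp h0
  have h2 : Continuous fun w : Ext F × ((J × c.I × ℕ) ⊕ R → Bool) => w.1.1.1.2 :=
    continuous_snd.comp h0
  refine h1.prodMk ?_
  refine continuous_rcv θ q0 e0 _ h2 _ ?_ _ continuous_snd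
  intro a
  exact (coD_clopen c F z a).preimage continuous_fst

private theorem coP_U (p : Ext G) :
    coP c θ F q0 e0 z (coU c hG p, rst θ (coD c F z (coU c hG p)) p.1.1.2) = p.1.1 := by
  unfold coP
  refine Prod.ext rfl ?_
  exact rcv_rst θ q0 e0 _ _ fun j i h => co_switch c hG p j i h

variable (θ F G η q0 e0 z) in
/-- the columns of the step -/
private noncomputable def coH (r : R') : Fam Z (Ext F) ((J × c.I × ℕ) ⊕ R) :=
  ⟨{p | (coP c θ F q0 e0 z p.1, p.2) ∈ (G (η.symm (.inr r))).1},
    (G (η.symm (.inr r))).2.preimage _ (coP_cont c θ F q0 e0 z)⟩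

private noncomputable def coTo (p : Ext G) : Ext (coH c θ F G η q0 e0 z) :=
  ⟨((coU c hG p, rst θ (coD c F z (coU c hG p)) p.1.1.2), fun r => p.1.2 (η.symm (.inr r))), by
    intro r
    show (coP c θ F q0 e0 z (coU c hG p, rst θ (coD c F z (coU c hG p)) p.1.1.2),
      p.1.2 (η.symm (.inr r))) ∈ (G (η.symm (.inr r))).1
    rw [coP_U c hG p]
    exact p.2 (η.symm (.inr r))⟩

/-- the values of the columns -/
private def coV (y : J → Z) (v : R' → Z) : J ⊕ R' → Z
  | .inl j => y j
  | .inr r => v r

private noncomputable def coInv (w : Ext (coH c θ F G η q0 e0 z)) : Ext G :=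
  ⟨(coP c θ F q0 e0 z w.1.1, fun i => coV w.1.1.1.1.2 w.1.2 (η i)), by
    intro i
    obtain ⟨k, rfl⟩ := η.symm.surjective i
    simp only [Equiv.apply_symm_apply]
    cases k with
    | inl j =>
      rw [hG j]
      have hy := w.1.1.1.2 j
      have hrho : rho θ q0 e0 (coP c θ F q0 e0 z w.1.1).2 = w.1.1.1.1.1.2 := rho_rcv θ q0 e0 _ _ _
      refine ⟨?_, ?_⟩
      · show (((coP c θ F q0 e0 z w.1.1).1, rho θ q0 e0 (coP c θ F q0 e0 z w.1.1).2),
          w.1.1.1.1.2 j) ∈ (F j).1
        rw [hrho]
        exact hy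
      · intro h1 a ha
        have h1' : (((coP c θ F q0 e0 z w.1.1).1, rho θ q0 e0 (coP c θ F q0 e0 z w.1.1).2),
          z j) ∈ (F j).1 := h1
        rw [hrho] at h1'
        exact rcv_zero θ q0 e0 _ _ _ j a ⟨h1', ha⟩
    | inr r => exact w.2 r⟩

private theorem coU_inv (w : Ext (coH c θ F G η q0 e0 z)) : coU c hG (coInv c hG w) = w.1.1.1 := by
  apply Subtype.ext
  refine Prod.ext (Prod.ext rfl ?_) ?_
  · exact rho_rcv θ q0 e0 _ _ _
  · funext j
    show coV w.1.1.1.1.2 w.1.2 (η (η.symm (.inl j))) = w.1.1.1.1.2 j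
    rw [Equiv.apply_symm_apply]
    rfl

private theorem co_left (p : Ext G) : coInv c hG (coTo c hG p) = p := by
  apply Subtype.ext
  refine Prod.ext (coP_U c hG p) ?_
  funext i
  obtain ⟨k, rfl⟩ := η.symm.surjective i
  show coV (fun j => p.1.2 (η.symm (.inl j))) (fun r => p.1.2 (η.symm (.inr r)))
    (η (η.symm k)) = p.1.2 (η.symm k)
  rw [Equiv.apply_symm_apply]
  cases k with
  | inl j => rfl
  | inr r => rfl

private theorem co_right (w : Ext (coH c θ F G η q0 e0 z)) : coTo c hG (coInv c hG w) = w := by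
  apply Subtype.ext
  refine Prod.ext (Prod.ext (coU_inv c hG w) ?_) ?_
  · show rst θ (coD c F z (coU c hG (coInv c hG w))) (coP c θ F q0 e0 z w.1.1).2 = w.1.1.2
    rw [coU_inv c hG w]
    exact rst_rcv θ q0 e0 _ _ _
  · funext r
    show coV w.1.1.1.1.2 w.1.2 (η (η.symm (.inr r))) = w.1.2 r
    rw [Equiv.apply_symm_apply]
    rfl

private theorem coTo_cont : Continuous (coTo c hG) := by
  have h2 : Continuous fun p : Ext G => p.1.1.2 :=
    continuous_snd.comp (continuous_fst.comp continuous_subtype_val)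
  have h3 : Continuous fun p : Ext G => p.1.2 := continuous_snd.comp continuous_subtype_val
  refine Continuous.subtype_mk ?_ _
  refine ((coU_cont c hG).prodMk ?_).prodMk ?_
  · refine continuous_rst θ _ ?_ _ h2
    intro a
    exact (coD_clopen c F z a).preimage (coU_cont c hG)
  · refine continuous_pi fun r => ?_
    exact (continuous_apply (η.symm (.inr r))).comp h3

private theorem coInv_cont : Continuous (coInv c hG) := by
  have h1 : Continuous fun w : Ext (coH c θ F G η q0 e0 z) => w.1.1 :=
    continuous_fst.comp continuous_subtype_val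
  have h2 : Continuous fun w : Ext (coH c θ F G η q0 e0 z) => w.1.2 :=
    continuous_snd.comp continuous_subtype_val
  have h3 : Continuous fun w : Ext (coH c θ F G η q0 e0 z) => w.1.1.1.1.2 :=
    continuous_snd.comp (continuous_subtype_val.comp (continuous_fst.comp h1))
  refine Continuous.subtype_mk ?_ _
  refine ((coP_cont c θ F q0 e0 z).comp h1).prodMk ?_
  refine continuous_pi fun i => ?_
  cases hi : η i with
  | inl j =>
    exact (continuous_apply j).comp h3
  | inr r =>
    exact (continuous_apply r).comp h2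

end CoreAux

/-- CORE. `G` is a family of columns over `X × 2^T` which contains the partner columns of `F`.
The map `u ((x, s), v) = ((x, rho s), v o partner)` is a step: the homeomorphism to the extension
of `Ext F` with bits `(J × c.I × ℕ) ⊕ R` (value `rst D s`) and columns `R'` (relations of `G`
pulled back along `(y, s') ↦ (x, rcv ..)`) has inverse given by `rcv`; here
`D = {(j, a) | ((x, rho s), e j) ∈ F j ∧ v j ∈ V (e j) a}` (clopen conditions). `u q = e` since the
values of `q` at the partner columns are forced. See section 3 of /team-store/vd_proof.md. -/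
theorem core {𝒮 : Type u → Prop} {X S J R T I' R' : Type u} [TopologicalSpace X]
    (θ : T ≃ (S ⊕ (J × c.I × ℕ)) ⊕ R) (F : J → Fam Z X S) (G : I' → Fam Z X T)
    (η : I' ≃ J ⊕ R') (q : Ext G) (e : Ext F)
    (hG : ∀ j, (G (η.symm (.inl j))).1 = partnerRel c (rho θ q.1.1.2 e.1.1.2) q.1.1.2
      (fun a => θ.symm (.inl (.inr (j, a, 0)))) (F j).1 (e.1.2 j))
    (hx : base G q = base F e) (h1 : 𝒮 ((J × c.I × ℕ) ⊕ R)) (h2 : 𝒮 R') :
    ∃ u : Ext G → Ext F, IsStep Z 𝒮 u ∧ (∀ p, base F (u p) = base G p) ∧ u q = e := by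
  have hG' : CoHyp c θ F G η q.1.1.2 e.1.1.2 e.1.2 := hG
  refine ⟨coU c hG', ?_, fun p => rfl, ?_⟩
  · exact ⟨(J × c.I × ℕ) ⊕ R, R', coH c θ F G η q.1.1.2 e.1.1.2 e.1.2,
      { toFun := coTo c hG'
        invFun := coInv c hG'
        left_inv := co_left c hG'
        right_inv := co_right c hG'
        continuous_toFun := coTo_cont c hG'
        continuous_invFun := coInv_cont c hG' }, fun y => rfl, h1, h2⟩
  · apply Subtype.ext
    refine Prod.ext (Prod.ext hx ?_) ?_
    · exact rho_self θ q.1.1.2 e.1.1.2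
    · funext j
      have h3 : ((q.1.1.1, rho θ q.1.1.2 e.1.1.2 q.1.1.2), e.1.2 j) ∈ (F j).1 := by
        rw [rho_self]
        have h4 : q.1.1.1 = e.1.1.1 := hx
        rw [h4]
        exact e.2 j
      have h5 := q.2 (η.symm (.inl j))
      rw [hG j] at h5
      exact partnerRel_forced c _ _ _ _ _ _ _ h3 h5

end Pool.Agent.VD
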