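import Pool.Agent.VD.Cl
import Pool.Agent.VD.Bit1
import Pool.Agent.VD.Bit2

set_option autoImplicit false

open Set TopologicalSpace

namespace Pool.Agent.VD

universe u

variable {Z : Type u} [TopologicalSpace Z] (c : Pieces Z)

/-- the relation of the partner column of the column `R`, with wanted value `z` and switch bits
`i`: `R` for the flipped bits, and, over the points where the value `z` is allowed, the switch bit
of every piece containing the value `p.2` is different from `q0` -/
def partnerRel {X S T : Type u} [TopologicalSpace X] (ρ : (T → Bool) → S → Bool)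
    (q0 : T → Bool) (i : c.I → T) (R : Set ((X × (S → Bool)) × Z)) (z : Z) :
    Set ((X × (T → Bool)) × Z) :=
  {p | ((p.1.1, ρ p.1.2), p.2) ∈ R ∧
    (((p.1.1, ρ p.1.2), z) ∈ R → ∀ a, p.2 ∈ c.V z a → p.1.2 (i a) = !(q0 (i a)))}

end Pool.Agent.VD
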