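import Mathlib

set_option autoImplicit false

open Set TopologicalSpace

namespace Pool.Agent.VD

universe u

/-- `Z` minus any point `e` has a point finite cover by clopen subsets `V e a` of `Z`. -/
structure Pieces (Z : Type u) [TopologicalSpace Z] where
  I : Type u
  V : Z → I → Set Z
  clopen : ∀ e a, IsClopen (V e a)
  notMem : ∀ e a, e ∉ V e a
  cover : ∀ e z, z ≠ e → ∃ a, z ∈ V e a
  fin : ∀ e z, {a | z ∈ V e a}.Finite

/-- A good relation between `W` and `Z`: closed, with open (hence clopen) sections, and every
point of `W` is related to some point of `Z`. -/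
structure IsGood {W Z : Type u} [TopologicalSpace W] [TopologicalSpace Z] (R : Set (W × Z)) :
    Prop where
  closed : IsClosed R
  opn : ∀ z, IsOpen {w | (w, z) ∈ R}
  ex : ∀ w, ∃ z, (w, z) ∈ R

section

variable (Z : Type u) [TopologicalSpace Z]

/-- A column over `X × 2^S`: a good relation. -/
abbrev Fam (X S : Type u) [TopologicalSpace X] : Type u :=
  {R : Set ((X × (S → Bool)) × Z) // IsGood R}

end

variable {Z : Type u} [TopologicalSpace Z]

/-- The points `((x, s), v)`: base point `x`, bits `s`, values `v j` of the columns `j`. -/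
def ExtSet {X S J : Type u} [TopologicalSpace X] (F : J → Fam Z X S) :
    Set ((X × (S → Bool)) × (J → Z)) :=
  {p | ∀ j, (p.1, p.2 j) ∈ (F j).1}

/-- The one-step extension of `X` with bits `S` and columns `F`. -/
abbrev Ext {X S J : Type u} [TopologicalSpace X] (F : J → Fam Z X S) : Type u :=
  ↥(ExtSet F)

/-- The projection of the extension to the base. -/
def base {X S J : Type u} [TopologicalSpace X] (F : J → Fam Z X S) (p : Ext F) : X :=
  p.1.1.1

variable (Z) in
/-- `f : Y → X` is (homeomorphic over `X` to) a one-step extension with index types of the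
class `𝒮`. -/
def IsStep (𝒮 : Type u → Prop) {Y X : Type u} [TopologicalSpace Y] [TopologicalSpace X]
    (f : Y → X) : Prop :=
  ∃ (S J : Type u) (F : J → Fam Z X S) (e : Y ≃ₜ Ext F),
    (∀ y, base F (e y) = f y) ∧ 𝒮 S ∧ 𝒮 J

variable (Z) in
/-- Finite compositions of one-step extensions. -/
inductive Nice (𝒮 : Type u → Prop) :
    ∀ {Y X : Type u} [TopologicalSpace Y] [TopologicalSpace X], (Y → X) → Prop
  | homeo {Y X : Type u} [TopologicalSpace Y] [TopologicalSpace X] (e : Y ≃ₜ X) :
      Nice 𝒮 (fun y => e y)
  | step {Y W X : Type u} [TopologicalSpace Y] [TopologicalSpace W] [TopologicalSpace X]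
      (g : Y → W) (h : W → X) : Nice 𝒮 g → IsStep Z 𝒮 h → Nice 𝒮 (fun y => h (g y))

/-- The pullback of `f : Y → X` and `g : W → X`. -/
abbrev Pull {Y W X : Type u} (f : Y → X) (g : W → X) : Type u := {p : Y × W // f p.1 = g p.2}

variable (Z) in
/-- Index type of the columns of the generic extension: a tag and any column. -/
abbrev BigIdx (X T : Type u) [TopologicalSpace X] : Type u := T × Fam Z X T

variable (Z) in
/-- The generic extension of `X` with tags `T`. -/
abbrev Big (X T : Type u) [TopologicalSpace X] : Type u :=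
  Ext (Z := Z) (X := X) (S := T) (J := BigIdx Z X T) (fun j => j.2)

/-- The classes `𝒮` of index types that we allow. -/
structure Good (𝒮 : Type u → Prop) : Prop where
  mono : ∀ {S T : Type u} (f : S → T), Function.Injective f → 𝒮 T → 𝒮 S
  empty : 𝒮 PEmpty
  sum : ∀ {S J : Type u}, 𝒮 S → 𝒮 J → 𝒮 (S ⊕ J)

end Pool.Agent.VD
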