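import Pool.Agent.VD.Hm

set_option autoImplicit false

open Set TopologicalSpace

namespace Pool.Agent.VD

universe u

variable {Z : Type u} [TopologicalSpace Z]

theorem Nice.continuous {𝒮 : Type u → Prop} {Y X : Type u} [TopologicalSpace Y]
    [TopologicalSpace X] {f : Y → X} (hf : Nice Z 𝒮 f) : Continuous f := by
  induction hf with
  | homeo e => exact e.continuous
  | step g h hg hh ih => exact hh.continuous.comp ih

theorem IsStep.nice {𝒮 : Type u → Prop} {Y X : Type u} [TopologicalSpace Y]
    [TopologicalSpace X] {f : Y → X} (hf : IsStep Z 𝒮 f) : Nice Z 𝒮 f :=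
  Nice.step (fun y => (Homeomorph.refl Y) y) f (Nice.homeo (Homeomorph.refl Y)) hf

theorem Nice.comp_homeo {𝒮 : Type u → Prop} {Y' Y X : Type u} [TopologicalSpace Y']
    [TopologicalSpace Y] [TopologicalSpace X] {f : Y → X} (hf : Nice Z 𝒮 f) (e : Y' ≃ₜ Y) :
    Nice Z 𝒮 (fun y => f (e y)) := by
  induction hf with
  | homeo e' => exact Nice.homeo (e.trans e')
  | step g h hg hh ih => exact Nice.step (fun y => g (e y)) h (ih e) hh

/-- composition (induction on `hh`, `homeo_isStep` in the base case) -/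
theorem Nice.comp {𝒮 : Type u → Prop} (h𝒮 : Good 𝒮) {Y W X : Type u} [TopologicalSpace Y]
    [TopologicalSpace W] [TopologicalSpace X] {g : Y → W} {h : W → X} (hg : Nice Z 𝒮 g)
    (hh : Nice Z 𝒮 h) : Nice Z 𝒮 (fun y => h (g y)) := by
  induction hh with
  | homeo e => exact Nice.step g (fun w => e w) hg (homeo_isStep h𝒮 e)
  | step g' h' hg' hh' ih => exact Nice.step (fun y => g' (g y)) h' (ih hg) hh'

end Pool.Agent.VD
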