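import Pool.Agent.VD.Tw1

set_option autoImplicit false

open Set TopologicalSpace

namespace Pool.Agent.VD

universe u

variable {Z : Type u} [TopologicalSpace Z] (c : Pieces Z)

theorem good_Sm : Good (Sm c) where
  mono := by
    rintro S T f hf ⟨n, g, hg⟩
    exact ⟨n, fun s => g (f s), hg.comp hf⟩
  empty := ⟨0, fun x => x.elim, fun x => x.elim⟩
  sum := by
    rintro S J ⟨n, f, hf⟩ ⟨m, g, hg⟩
    obtain ⟨a, ha⟩ := Tg_mono c (le_max_left n m)
    obtain ⟨b, hb⟩ := Tg_mono c (le_max_right n m)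
    obtain ⟨k, hk⟩ := Tg_prod c (fun x : Tg c (max n m) => x) Function.injective_id
    refine ⟨max n m + 1, fun x => k (Sum.elim (fun s => (a (f s), (none, 0)))
      (fun j => (b (g j), (none, 1))) x), fun x y hxy => ?_⟩
    have h := hk hxy
    rcases x with s | j <;> rcases y with s' | j'
    · simp only [Sum.elim_inl, Prod.mk.injEq, and_true] at h
      exact congrArg Sum.inl (hf (ha h))
    · exfalso
      simp only [Sum.elim_inl, Sum.elim_inr, Prod.mk.injEq] at h
      exact zero_ne_one h.2.2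
    · exfalso
      simp only [Sum.elim_inl, Sum.elim_inr, Prod.mk.injEq] at h
      exact one_ne_zero h.2.2
    · simp only [Sum.elim_inr, Prod.mk.injEq, and_true] at h
      exact congrArg Sum.inr (hg (hb h))

theorem Sm_prod {J : Type u} (h : Sm c J) : Sm c (J × c.I × ℕ) := by
  obtain ⟨n, f, hf⟩ := h
  obtain ⟨g, hg⟩ := Tg_prod c f hf
  refine ⟨n + 1, fun x => g (x.1, (some x.2.1, x.2.2)), fun x y hxy => ?_⟩
  have h := hg hxy
  simp only [Prod.mk.injEq, Option.some.injEq] at h
  exact Prod.ext h.1 (Prod.ext h.2.1 h.2.2)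

theorem Sm_large {A : Type u} (h : Sm c A) :
    ∃ N, ∀ n, N ≤ n → ∃ f : A → Tg c n, Function.Injective f := by
  obtain ⟨N, f, hf⟩ := h
  refine ⟨N, fun n hn => ?_⟩
  obtain ⟨g, hg⟩ := Tg_mono c hn
  exact ⟨fun a => g (f a), hg.comp hf⟩

end Pool.Agent.VD
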