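import Pool.Agent.VD.Dn
import Pool.Agent.VD.Tw2
import Pool.Agent.VD.Nc

set_option autoImplicit false

open Set TopologicalSpace

namespace Pool.Agent.VD

universe u

variable {Z : Type u} [TopologicalSpace Z] (c : Pieces Z)

theorem prj_isStep (n : ℕ) : IsStep Z (Sm c) (prj c n) :=
  ⟨Tg c n, BigIdx Z (K c n) (Tg c n), fun j => j.2, Homeomorph.refl _, fun _ => rfl,
    ⟨n, id, Function.injective_id⟩, Sm_idx c n⟩

theorem down_nice {n m : ℕ} (h : n ≤ m) : Nice Z (Sm c) (down c h) := by
  induction m, h using Nat.le_induction with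
  | base =>
    have h1 : down c (le_refl n) = fun y => (Homeomorph.refl (K c n)) y :=
      funext (down_refl c n)
    rw [h1]
    exact Nice.homeo _
  | succ m h ih =>
    have h1 : down c (h.trans (Nat.le_succ m)) = fun x => down c h (prj c m x) :=
      funext (down_succ c h)
    rw [h1]
    exact Nice.comp (good_Sm c) (prj_isStep c m).nice ih

theorem down_continuous {n m : ℕ} (h : n ≤ m) : Continuous (down c h) :=
  (down_nice c h).continuous

end Pool.Agent.VD
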