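import Pool.Agent.VD.G2
import Pool.Agent.VD.Tw2
import Pool.Agent.VD.Dn2

set_option autoImplicit false

open Set TopologicalSpace

namespace Pool.Agent.VD

universe u

variable {Z : Type u} [TopologicalSpace Z] (c : Pieces Z)

/-- `big_dominates` at a high level `n`, for a step `f : E → K n` given abstractly: there is
`u : K (n + 1) → E` over `K n` with `u (q (n + 1)) = e`. -/
theorem step_dominated (q : Lim c) (S J : Type u) (hS : Sm c S) (hJ : Sm c J) :
    ∃ N, ∀ n, N ≤ n → ∀ (E : Type u) (_ : TopologicalSpace E) (F : J → Fam Z (K c n) S)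
      (ψ : E ≃ₜ Ext F) (f : E → K c n) (_ : ∀ y, base F (ψ y) = f y) (e : E) (_ : f e = q.1 n),
      ∃ u : K c (n + 1) → E, Nice Z (Sm c) u ∧ (∀ x, f (u x) = prj c n x) ∧
        u (q.1 (n + 1)) = e := by
  have hG := good_Sm c
  have hJ' := Sm_prod c hJ
  obtain ⟨N₁, hN₁⟩ := Sm_large c (hG.sum hS hJ')
  obtain ⟨N₂, hN₂⟩ := Sm_large c hJ
  refine ⟨max N₁ N₂, ?_⟩
  intro n hn E _ F ψ f hf e he
  obtain ⟨i, hi⟩ := hN₁ n (le_trans (le_max_left _ _) hn)
  obtain ⟨t, ht⟩ := hN₂ n (le_trans (le_max_right _ _) hn)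
  have hT : Sm c (Tg c n) := ⟨n, id, Function.injective_id⟩
  have hx : base (X := K c n) (fun j : BigIdx Z (K c n) (Tg c n) => j.2) (q.1 (n + 1)) =
      base F (ψ e) := by
    rw [hf, he]
    exact q.2 n
  obtain ⟨u₀, h1, h2, h3⟩ := big_dominates (Z := Z) c hG F i hi t ht hT hJ' (Sm_idx c n)
    (q.1 (n + 1)) (ψ e) hx
  refine ⟨fun x => ψ.symm (u₀ x), ?_, ?_, ?_⟩
  · exact Nice.comp hG (IsStep.nice h1) (Nice.homeo ψ.symm)
  · intro x
    rw [← hf, Homeomorph.apply_symm_apply]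
    exact h2 x
  · exact (congrArg ψ.symm h3).trans (ψ.symm_apply_apply e)

end Pool.Agent.VD
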