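import Pool.Agent.VD.Hm

set_option autoImplicit false

open Set TopologicalSpace

namespace Pool.Agent.VD

universe u

variable {Z : Type u} [TopologicalSpace Z]

/-- The pullback of an explicit one-step extension is an explicit one-step extension with the same
bits and columns: `F' j` = preimage of `F j` under `(w, s) ↦ (g w, s)` (`IsGood.preimage`). -/
theorem pull_explicit {Y W X S J : Type u} [TopologicalSpace Y] [TopologicalSpace W]
    [TopologicalSpace X] (F : J → Fam Z X S) (ψ : Y ≃ₜ Ext F) (f : Y → X)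
    (hf : ∀ y, base F (ψ y) = f y) (g : W → X) (hg : Continuous g) :
    ∃ (F' : J → Fam Z W S) (ψ' : Pull f g ≃ₜ Ext F'), ∀ p, base F' (ψ' p) = p.1.2 := by
  have hx : ∀ p : Pull f g, (ψ p.1.1).1.1.1 = g p.1.2 := fun p => (hf p.1.1).trans p.2
  obtain ⟨F', hF'⟩ : ∃ F' : J → Fam Z W S, ∀ (j : J) (p : (W × (S → Bool)) × Z),
      p ∈ (F' j).1 ↔ (((g p.1.1, p.1.2), p.2) : (X × (S → Bool)) × Z) ∈ (F j).1 :=
    ⟨fun j => ⟨{p : (W × (S → Bool)) × Z |
        (((g p.1.1, p.1.2), p.2) : (X × (S → Bool)) × Z) ∈ (F j).1},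
      (F j).2.preimage (fun w : W × (S → Bool) => (g w.1, w.2)) (by fun_prop)⟩,
      fun _ _ => Iff.rfl⟩
  have hF : ∀ p : Pull f g, (((p.1.2, (ψ p.1.1).1.1.2), (ψ p.1.1).1.2) :
      (W × (S → Bool)) × (J → Z)) ∈ ExtSet F' := by
    intro p j
    rw [hF']
    show (((g p.1.2, (ψ p.1.1).1.1.2), (ψ p.1.1).1.2 j) : (X × (S → Bool)) × Z) ∈ (F j).1
    rw [← hx p]
    exact (ψ p.1.1).2 j
  have hG : ∀ q : Ext F', (((g q.1.1.1, q.1.1.2), q.1.2) : (X × (S → Bool)) × (J → Z)) ∈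
      ExtSet F := fun q j => (hF' j _).1 (q.2 j)
  have hb : ∀ q : Ext F', f (ψ.symm ⟨((g q.1.1.1, q.1.1.2), q.1.2), hG q⟩) = g q.1.1.1 := by
    intro q
    rw [← hf, ψ.apply_symm_apply]
    rfl
  have hl : ∀ p : Pull f g, (⟨((g p.1.2, (ψ p.1.1).1.1.2), (ψ p.1.1).1.2), hG ⟨_, hF p⟩⟩ : Ext F) =
      ψ p.1.1 := by
    intro p
    apply Subtype.ext
    exact Prod.ext (Prod.ext (hx p).symm rfl) rfl
  refine ⟨F', Homeomorph.mk ⟨fun p => ⟨_, hF p⟩, fun q => ⟨(ψ.symm ⟨_, hG q⟩, q.1.1.1), hb q⟩,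
    ?_, ?_⟩ ?_ ?_, fun p => rfl⟩
  · intro p
    apply Subtype.ext
    refine Prod.ext ?_ rfl
    show ψ.symm ⟨((g p.1.2, (ψ p.1.1).1.1.2), (ψ p.1.1).1.2), hG ⟨_, hF p⟩⟩ = p.1.1
    rw [hl p, ψ.symm_apply_apply]
  · intro q
    apply Subtype.ext
    show (((q.1.1.1, (ψ (ψ.symm ⟨((g q.1.1.1, q.1.1.2), q.1.2), hG q⟩)).1.1.2),
      (ψ (ψ.symm ⟨((g q.1.1.1, q.1.1.2), q.1.2), hG q⟩)).1.2) :
        (W × (S → Bool)) × (J → Z)) = q.1
    rw [ψ.apply_symm_apply]
  · show Continuous (fun p : Pull f g => (⟨((p.1.2, (ψ p.1.1).1.1.2), (ψ p.1.1).1.2), hF p⟩ :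
      Ext F'))
    have h1 : Continuous (fun p : Pull f g => (ψ p.1.1).1) :=
      continuous_subtype_val.comp (ψ.continuous.comp (continuous_fst.comp continuous_subtype_val))
    refine Continuous.subtype_mk ?_ _
    exact ((continuous_snd.comp continuous_subtype_val).prodMk
      (continuous_snd.comp (continuous_fst.comp h1))).prodMk (continuous_snd.comp h1)
  · show Continuous (fun q : Ext F' => (⟨(ψ.symm ⟨((g q.1.1.1, q.1.1.2), q.1.2), hG q⟩, q.1.1.1),
      hb q⟩ : Pull f g))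
    have h1 : Continuous (fun q : Ext F' => q.1) := continuous_subtype_val
    have h2 : Continuous (fun q : Ext F' =>
        (⟨((g q.1.1.1, q.1.1.2), q.1.2), hG q⟩ : Ext F)) := by
      refine Continuous.subtype_mk ?_ _
      exact ((hg.comp (continuous_fst.comp (continuous_fst.comp h1))).prodMk
        (continuous_snd.comp (continuous_fst.comp h1))).prodMk (continuous_snd.comp h1)
    refine Continuous.subtype_mk ?_ _
    exact (ψ.symm.continuous.comp h2).prodMk (continuous_fst.comp (continuous_fst.comp h1))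

theorem IsStep.pull {𝒮 : Type u → Prop} {Y W X : Type u} [TopologicalSpace Y]
    [TopologicalSpace W] [TopologicalSpace X] {f : Y → X} (hf : IsStep Z 𝒮 f) {g : W → X}
    (hg : Continuous g) : IsStep Z 𝒮 (fun p : Pull f g => p.1.2) := by
  obtain ⟨S, J, F, ψ, hψ, hS, hJ⟩ := hf
  obtain ⟨F', ψ', h⟩ := pull_explicit F ψ f hψ g hg
  exact ⟨S, J, F', ψ', h, hS, hJ⟩

end Pool.Agent.VD
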