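import Pool.Agent.VD.Nc
import Pool.Agent.VD.Pb1

set_option autoImplicit false

open Set TopologicalSpace

namespace Pool.Agent.VD

universe u

variable {Z : Type u} [TopologicalSpace Z]

private def homeoBase {Y W X : Type u} [TopologicalSpace Y] [TopologicalSpace W]
    [TopologicalSpace X] (e : Y ≃ₜ X) {g : W → X} (hg : Continuous g) :
    Pull (fun y => e y) g ≃ₜ W where
  toFun p := p.1.2
  invFun w := ⟨(e.symm (g w), w), e.apply_symm_apply (g w)⟩
  left_inv := by
    rintro ⟨⟨y, w⟩, h⟩
    have h' : e y = g w := h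
    apply Subtype.ext
    apply Prod.ext
    · show e.symm (g w) = y
      rw [← h', e.symm_apply_apply]
    · rfl
  right_inv _ := rfl
  continuous_toFun := continuous_snd.comp continuous_subtype_val
  continuous_invFun :=
    ((e.symm.continuous.comp hg).prodMk continuous_id).subtype_mk _

private def homeoStep {Y V W X : Type u} [TopologicalSpace Y] [TopologicalSpace V]
    [TopologicalSpace W] [TopologicalSpace X] {k : Y → V} (hk : Continuous k) (h : V → X)
    (g : W → X) :
    Pull (fun y => h (k y)) g ≃ₜ Pull k (fun p : Pull h g => p.1.1) where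
  toFun p := ⟨(p.1.1, ⟨(k p.1.1, p.1.2), p.2⟩), rfl⟩
  invFun q := ⟨(q.1.1, q.1.2.1.2), by
    have h1 : k q.1.1 = q.1.2.1.1 := q.2
    show h (k q.1.1) = g q.1.2.1.2
    rw [h1]
    exact q.1.2.2⟩
  left_inv _ := rfl
  right_inv := by
    rintro ⟨⟨y, ⟨⟨v, w⟩, hvw⟩⟩, hy⟩
    have hy' : k y = v := hy
    subst hy'
    rfl
  continuous_toFun :=
    ((continuous_fst.comp continuous_subtype_val).prodMk
      (((hk.comp (continuous_fst.comp continuous_subtype_val)).prodMk
        (continuous_snd.comp continuous_subtype_val)).subtype_mk _)).subtype_mk _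
  continuous_invFun :=
    ((continuous_fst.comp continuous_subtype_val).prodMk
      (continuous_snd.comp (continuous_subtype_val.comp
        (continuous_snd.comp continuous_subtype_val)))).subtype_mk _

private def swapHomeo {Y W X : Type u} [TopologicalSpace Y] [TopologicalSpace W]
    (f : Y → X) (g : W → X) : Pull f g ≃ₜ Pull g f where
  toFun p := ⟨(p.1.2, p.1.1), p.2.symm⟩
  invFun p := ⟨(p.1.2, p.1.1), p.2.symm⟩
  left_inv _ := rfl
  right_inv _ := rfl
  continuous_toFun := ((continuous_snd.comp continuous_subtype_val).prodMk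
    (continuous_fst.comp continuous_subtype_val)).subtype_mk _
  continuous_invFun := ((continuous_snd.comp continuous_subtype_val).prodMk
    (continuous_fst.comp continuous_subtype_val)).subtype_mk _

/-- Induction on `hf`: for `f = h ∘ k`, `h` a step, `Pull (h ∘ k) g ≃ₜ Pull k (fst of Pull h g)`,
`((y, w)) ↦ (y, (k y, w))`; then `IsStep.pull` and `Nice.comp_homeo`. Base case: `Pull e g ≃ₜ W`. -/
theorem Nice.pull {𝒮 : Type u → Prop} {Y W X : Type u} [TopologicalSpace Y]
    [TopologicalSpace W] [TopologicalSpace X] {f : Y → X} (hf : Nice Z 𝒮 f) {g : W → X}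
    (hg : Continuous g) : Nice Z 𝒮 (fun p : Pull f g => p.1.2) := by
  induction hf generalizing W with
  | homeo e => exact Nice.homeo (homeoBase e hg)
  | step k h hk hh ih =>
    have h1 := ih (g := fun p : Pull h g => p.1.1) (continuous_fst.comp continuous_subtype_val)
    have h2 := Nice.step _ _ h1 (hh.pull hg)
    exact h2.comp_homeo (homeoStep hk.continuous h g)

/-- the same for the other projection -/
theorem Nice.pull' {𝒮 : Type u → Prop} {Y W X : Type u} [TopologicalSpace Y]
    [TopologicalSpace W] [TopologicalSpace X] {f : Y → X} (hf : Continuous f) {g : W → X}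
    (hg : Nice Z 𝒮 g) : Nice Z 𝒮 (fun p : Pull f g => p.1.1) := by
  exact (hg.pull hf).comp_homeo (swapHomeo f g)

end Pool.Agent.VD
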