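import Pool.Agent.VD.Dom1
import Pool.Agent.VD.Pb2

set_option autoImplicit false

open Set TopologicalSpace

namespace Pool.Agent.VD

universe u

variable {Z : Type u} [TopologicalSpace Z] (c : Pieces Z)

/-- Lifting through one step `h : V → X` (index types `S`, `J`): choose `n ≥ m` large
(`step_dominated` for `S`, `J`), pull `h` back along `w o down : K n → X` (`pull_explicit`),
dominate the pullback `Pull h (w o down) → K n` at the point `(e, q n)`, and project to `V`
(`Nice.pull'`, `Nice.comp`). -/
theorem lift_step (q : Lim c) {V X : Type u} [TopologicalSpace V] [TopologicalSpace X]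
    (h : V → X) (hh : IsStep Z (Sm c) h) (m : ℕ) (w : K c m → X) (hw : Nice Z (Sm c) w) (e : V)
    (he : w (q.1 m) = h e) :
    ∃ (m' : ℕ) (hm : m ≤ m') (w' : K c m' → V), Nice Z (Sm c) w' ∧
      (∀ x, h (w' x) = w (down c hm x)) ∧ w' (q.1 m') = e := by
  have hhc : Continuous h := hh.continuous
  obtain ⟨S, J, F, ψ, hψ, hS, hJ⟩ := hh
  obtain ⟨N, hN⟩ := step_dominated c q S J hS hJ
  have hmn : m ≤ max m N := le_max_left _ _
  have hNn : N ≤ max m N := le_max_right _ _
  generalize max m N = n at hmn hNn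
  have hgN : Nice Z (Sm c) (fun x : K c n => w (down c hmn x)) :=
    Nice.comp (good_Sm c) (down_nice c hmn) hw
  have hg : Continuous (fun x : K c n => w (down c hmn x)) := hgN.continuous
  obtain ⟨F', ψ', hF'⟩ := pull_explicit F ψ h hψ (fun x : K c n => w (down c hmn x)) hg
  have he' : h e = w (down c hmn (q.1 n)) := by rw [down_thread, he]
  obtain ⟨u, hu, hu1, hu2⟩ := hN n hNn (Pull h (fun x : K c n => w (down c hmn x)))
    inferInstance F' ψ' (fun p => p.1.2) hF' ⟨(e, q.1 n), he'⟩ rfl
  refine ⟨n + 1, hmn.trans (Nat.le_succ n), fun x => (u x).1.1, ?_, ?_, ?_⟩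
  · have hp : Nice Z (Sm c)
        (fun p : Pull h (fun x : K c n => w (down c hmn x)) => p.1.1) := Nice.pull' hhc hgN
    exact Nice.comp (good_Sm c) (g := u) hu hp
  · intro x
    have h1 : h (u x).1.1 = w (down c hmn (u x).1.2) := (u x).2
    have h2 : (u x).1.2 = prj c n x := hu1 x
    rw [down_succ, h1, h2]
  · show (u (q.1 (n + 1))).1.1 = e
    rw [hu2]

end Pool.Agent.VD
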