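import Mathlib

set_option autoImplicit false

open Set TopologicalSpace

namespace Pool.Agent.VD

universe u

/-- complement of the range of an injection -/
theorem exists_equiv_sum {A T : Type u} (i : A → T) (hi : Function.Injective i) :
    ∃ (R : Type u) (θ : T ≃ A ⊕ R) (k : R → T), (∀ a, θ.symm (.inl a) = i a) ∧
      Function.Injective k := by
  classical
  refine ⟨((Set.range i)ᶜ : Set T), (((Equiv.ofInjective i hi).sumCongr
    (Equiv.refl ((Set.range i)ᶜ : Set T))).trans (Equiv.Set.sumCompl (Set.range i))).symm,
    fun r => r.1, fun a => ?_, Subtype.val_injective⟩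
  rw [Equiv.symm_symm]
  rfl

end Pool.Agent.VD
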