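import Pool.Agent.VD.Core
import Pool.Agent.VD.Inj

set_option autoImplicit false

open Set TopologicalSpace

namespace Pool.Agent.VD

universe u

variable {Z : Type u} [TopologicalSpace Z] (c : Pieces Z)

/-- `core` applied to the generic extension: the partner of `j` is `(t j, partnerRel ..)`.
Every one-step extension with a base point is dominated by the generic extension with any
point over the same base point. -/
theorem big_dominates {𝒮 : Type u → Prop} (h𝒮 : Good 𝒮) {X S J T : Type u} [TopologicalSpace X]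
    (F : J → Fam Z X S) (i : S ⊕ (J × c.I × ℕ) → T) (hi : Function.Injective i)
    (t : J → T) (ht : Function.Injective t) (hT : 𝒮 T) (hJ : 𝒮 (J × c.I × ℕ))
    (hB : 𝒮 (BigIdx Z X T)) (q : Big Z X T) (e : Ext F) (hx : base _ q = base F e) :
    ∃ u : Big Z X T → Ext F, IsStep Z 𝒮 u ∧ (∀ p, base F (u p) = base _ p) ∧ u q = e := by
  obtain ⟨R, θ, k, hθ, hk⟩ := exists_equiv_sum i hi
  have hρ : Continuous (rho θ q.1.1.2 e.1.1.2) := continuous_rho θ _ _
  let β : J → BigIdx Z X T := fun j => (t j,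
    ⟨partnerRel c (rho θ q.1.1.2 e.1.1.2) q.1.1.2 (fun a => θ.symm (.inl (.inr (j, a, 0))))
      (F j).1 (e.1.2 j), partnerRel_isGood c _ hρ _ _ _ (F j).2 _⟩)
  have hβ : Function.Injective β := fun a b h => ht (congrArg Prod.fst h)
  obtain ⟨R', η, k', hη, hk'⟩ := exists_equiv_sum β hβ
  refine core c (𝒮 := 𝒮) θ F (fun j : BigIdx Z X T => j.2) η q e ?_ hx
    (h𝒮.sum hJ (h𝒮.mono k hk hT)) (h𝒮.mono k' hk' hB)
  intro j
  rw [hη j]

end Pool.Agent.VD
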