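import Pool.Agent.VD.Cl

set_option autoImplicit false

open Set TopologicalSpace

namespace Pool.Agent.VD

universe u

variable {Z : Type u} [TopologicalSpace Z]

theorem IsStep.continuous {𝒮 : Type u → Prop} {Y X : Type u} [TopologicalSpace Y]
    [TopologicalSpace X] {f : Y → X} (hf : IsStep Z 𝒮 f) : Continuous f := by
  obtain ⟨S, J, F, e, he, -, -⟩ := hf
  have h1 : f = fun y => base F (e y) := funext fun y => (he y).symm
  rw [h1]
  exact (continuous_base F).comp e.continuous

theorem IsStep.comp_homeo {𝒮 : Type u → Prop} {Y' Y X : Type u} [TopologicalSpace Y']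
    [TopologicalSpace Y] [TopologicalSpace X] {f : Y → X} (hf : IsStep Z 𝒮 f) (e : Y' ≃ₜ Y) :
    IsStep Z 𝒮 (fun y => f (e y)) := by
  obtain ⟨S, J, F, e', he, hS, hJ⟩ := hf
  exact ⟨S, J, F, e.trans e', fun y => he (e y), hS, hJ⟩

/-- the extension with no bits and no columns -/
private def emptyExt {X : Type u} [TopologicalSpace X] (F : PEmpty.{u + 1} → Fam Z X PEmpty.{u + 1}) :
    X ≃ₜ Ext F where
  toFun x := ⟨((x, PEmpty.elim), PEmpty.elim), fun j => j.elim⟩
  invFun p := base F p
  left_inv x := rfl
  right_inv p := by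
    refine Subtype.ext (Prod.ext (Prod.ext rfl ?_) ?_)
    · funext i
      exact i.elim
    · funext i
      exact i.elim
  continuous_toFun := by
    refine Continuous.subtype_mk ?_ _
    exact (continuous_id.prodMk continuous_const).prodMk continuous_const
  continuous_invFun := continuous_base F

/-- a homeomorphism is a step with no bits and no columns -/
theorem homeo_isStep {𝒮 : Type u → Prop} (h𝒮 : Good 𝒮) {Y X : Type u} [TopologicalSpace Y]
    [TopologicalSpace X] (e : Y ≃ₜ X) : IsStep Z 𝒮 (fun y => e y) :=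
  ⟨PEmpty, PEmpty, fun j => j.elim, e.trans (emptyExt fun j => j.elim), fun _ => rfl,
    h𝒮.empty, h𝒮.empty⟩

end Pool.Agent.VD
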