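import Pool.Agent.VD.Dom2

set_option autoImplicit false

open Set TopologicalSpace

namespace Pool.Agent.VD

universe u

variable {Z : Type u} [TopologicalSpace Z] (c : Pieces Z)

/-- induction on `hg` with `lift_step` (for `g = h o g1`: lift through `h` first, then `g1`) -/
theorem lift (q : Lim c) {E X : Type u} [TopologicalSpace E] [TopologicalSpace X] (g : E → X)
    (hg : Nice Z (Sm c) g) : ∀ (m : ℕ) (w : K c m → X) (_ : Nice Z (Sm c) w) (e : E)
    (_ : w (q.1 m) = g e), ∃ (m' : ℕ) (hm : m ≤ m') (w' : K c m' → E), Nice Z (Sm c) w' ∧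
      (∀ x, g (w' x) = w (down c hm x)) ∧ w' (q.1 m') = e := by
  induction hg with
  | homeo e0 =>
    intro m w hw e he
    refine ⟨m, le_refl m, fun x => e0.symm (w x), hw.comp (good_Sm c) (Nice.homeo e0.symm),
      fun x => ?_, ?_⟩
    · show e0 (e0.symm (w x)) = w (down c (le_refl m) x)
      rw [e0.apply_symm_apply, down_refl]
    · show e0.symm (w (q.1 m)) = e
      rw [he]
      exact e0.symm_apply_apply e
  | step g1 h hg1 hh ih =>
    intro m w hw e he
    obtain ⟨m1, hm1, w1, hw1, h1, h2⟩ := lift_step c q h hh m w hw (g1 e) he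
    obtain ⟨m2, hm2, w2, hw2, h3, h4⟩ := ih m1 w1 hw1 e h2
    refine ⟨m2, hm1.trans hm2, w2, hw2, fun x => ?_, h4⟩
    show h (g1 (w2 x)) = w (down c (hm1.trans hm2) x)
    rw [h3, h1, down_down]

/-- `lift` applied to `w = down : K (a + 1) → K a` -/
theorem dom (p q : Lim c) {a b : ℕ} (v : K c b → K c a) (hv : Nice Z (Sm c) v)
    (h : v (p.1 b) = q.1 a) :
    ∃ (a' : ℕ) (ha : a < a') (u : K c a' → K c b), Nice Z (Sm c) u ∧
      (∀ x, v (u x) = down c ha.le x) ∧ u (q.1 a') = p.1 b := by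
  obtain ⟨m', hm', w', hw', h1, h2⟩ := lift c q v hv (a + 1) (down c (Nat.le_succ a))
    (down_nice c (Nat.le_succ a)) (p.1 b) (by rw [down_thread, h])
  refine ⟨m', hm', w', hw', fun x => ?_, h2⟩
  rw [h1, down_down]

end Pool.Agent.VD
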