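import Pool.Agent.VD.Zig
import Pool.Agent.VD.Lift

set_option autoImplicit false

open Set TopologicalSpace

namespace Pool.Agent.VD

universe u

variable {Z : Type u} [TopologicalSpace Z] (c : Pieces Z)

/-- the states of the recursion -/
private structure St (p q : Lim c) where
  a : ℕ
  b : ℕ
  v : K c b → K c a
  nice : Nice Z (Sm c) v
  pt : v (p.1 b) = q.1 a

/-- the first state -/
private def st0 (p q : Lim c) : St c p q where
  a := 0
  b := 0
  v := fun x => x
  nice := Nice.homeo (Homeomorph.refl (K c 0))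
  pt := (inferInstance : Subsingleton PUnit.{u + 1}).elim (p.1 0) (q.1 0)

private theorem st_step (p q : Lim c) (s : St c p q) :
    ∃ (s' : St c p q) (ha : s.a < s'.a) (hb : s.b < s'.b) (u : K c s'.a → K c s.b),
      Nice Z (Sm c) u ∧ (∀ x, s.v (u x) = down c ha.le x) ∧
      (∀ x, u (s'.v x) = down c hb.le x) ∧ u (q.1 s'.a) = p.1 s.b := by
  obtain ⟨a', ha, u, hu, h1, h2⟩ := dom c p q s.v s.nice s.pt
  obtain ⟨b', hb, v', hv', h3, h4⟩ := dom c q p u hu h2
  exact ⟨⟨a', b', v', hv', h4⟩, ha, hb, u, hu, h1, h3, h2⟩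

/-- The state `(a, b, v : K b → K a nice, v (p b) = q a)`, start `(0, 0, id)`; step: `dom`, then
`dom` with the roles of `p`, `q` exchanged; `zigzag` for the sequence obtained. -/
theorem homogeneous (p q : Lim c) : ∃ h : Lim c ≃ₜ Lim c, h q = p := by
  classical
  choose nx ha hb u hu h1 h2 h3 using st_step c p q
  let sq : ℕ → St c p q := fun n => Nat.rec (st0 c p q) (fun _ s => nx s) n
  have hs : ∀ n, sq (n + 1) = nx (sq n) := fun n => rfl
  exact zigzag c p q (fun k => (sq k).a) (fun k => (sq k).b)
    (strictMono_nat_of_lt_succ fun k => ha (sq k))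
    (strictMono_nat_of_lt_succ fun k => hb (sq k))
    (fun k => (sq k).v) (fun k => u (sq k))
    (fun k => (sq k).nice.continuous) (fun k => (hu (sq k)).continuous)
    (fun k x => h1 (sq k) x) (fun k x => h2 (sq k) x) (fun k => h3 (sq k))

end Pool.Agent.VD
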