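import Pool.Agent.VD.CoreDefs

set_option autoImplicit false

open Set TopologicalSpace

namespace Pool.Agent.VD

universe u

variable {Z : Type u} [TopologicalSpace Z] (c : Pieces Z)

/-- `partnerRel` is good: closed because `V z a` is clopen; the section at a value `v` is
determined by a clopen condition and finitely many bits (`c.fin`); nonempty: `z` where `z` is
allowed (`c.notMem`), any value allowed by `R` elsewhere. -/
theorem partnerRel_isGood {X S T : Type u} [TopologicalSpace X] (ρ : (T → Bool) → S → Bool)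
    (hρ : Continuous ρ) (q0 : T → Bool) (i : c.I → T) (R : Set ((X × (S → Bool)) × Z))
    (hR : IsGood R) (z : Z) : IsGood (partnerRel c ρ q0 i R z) := by
  have hm : Continuous (fun w : X × (T → Bool) => ((w.1, ρ w.2) : X × (S → Bool))) :=
    continuous_fst.prodMk (hρ.comp continuous_snd)
  have hsec : ∀ v : Z, IsClosed {w : X × (S → Bool) | (w, v) ∈ R} := fun v =>
    hR.closed.preimage (continuous_id.prodMk continuous_const)
  have hC : ∀ a : c.I, IsClopen {w : X × (T → Bool) | w.2 (i a) = !(q0 (i a))} := fun a =>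
    (isClopen_discrete ({!(q0 (i a))} : Set Bool)).preimage
      ((continuous_apply (i a)).comp continuous_snd)
  refine ⟨?_, ?_, ?_⟩
  · have h1 : IsClosed {p : (X × (T → Bool)) × Z | ((p.1.1, ρ p.1.2), p.2) ∈ R} :=
      hR.closed.preimage ((hm.comp continuous_fst).prodMk continuous_snd)
    have h2 : IsOpen {p : (X × (T → Bool)) × Z | ((p.1.1, ρ p.1.2), z) ∈ R} :=
      (hR.opn z).preimage (hm.comp continuous_fst)
    have h3 : IsClosed {p : (X × (T → Bool)) × Z |
        ∀ a, p.2 ∈ c.V z a → p.1.2 (i a) = !(q0 (i a))} := by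
      have h4 : {p : (X × (T → Bool)) × Z | ∀ a, p.2 ∈ c.V z a → p.1.2 (i a) = !(q0 (i a))} =
          ⋂ a, ({p : (X × (T → Bool)) × Z | p.2 ∈ c.V z a}ᶜ ∪
            {p : (X × (T → Bool)) × Z | p.1.2 (i a) = !(q0 (i a))}) := by
        ext p
        simp only [mem_setOf_eq, mem_iInter, mem_union, mem_compl_iff]
        exact forall_congr' fun a => imp_iff_not_or
      rw [h4]
      refine isClosed_iInter fun a => IsClosed.union ?_ ?_
      · exact ((c.clopen z a).isOpen.preimage continuous_snd).isClosed_compl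
      · exact (hC a).isClosed.preimage continuous_fst
    have h5 : partnerRel c ρ q0 i R z = {p : (X × (T → Bool)) × Z | ((p.1.1, ρ p.1.2), p.2) ∈ R} ∩
        ({p : (X × (T → Bool)) × Z | ((p.1.1, ρ p.1.2), z) ∈ R}ᶜ ∪
          {p : (X × (T → Bool)) × Z | ∀ a, p.2 ∈ c.V z a → p.1.2 (i a) = !(q0 (i a))}) := by
      ext p
      exact and_congr_right fun _ => imp_iff_not_or
    rw [h5]
    exact h1.inter (h2.isClosed_compl.union h3)
  · intro v
    have h1 : IsOpen {w : X × (T → Bool) | ((w.1, ρ w.2), v) ∈ R} := (hR.opn v).preimage hm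
    have h2 : IsClosed {w : X × (T → Bool) | ((w.1, ρ w.2), z) ∈ R} := (hsec z).preimage hm
    have h3 : IsOpen {w : X × (T → Bool) | ∀ a, v ∈ c.V z a → w.2 (i a) = !(q0 (i a))} := by
      have h4 : {w : X × (T → Bool) | ∀ a, v ∈ c.V z a → w.2 (i a) = !(q0 (i a))} =
          ⋂ a ∈ {a | v ∈ c.V z a}, {w : X × (T → Bool) | w.2 (i a) = !(q0 (i a))} := by
        ext w
        simp only [mem_setOf_eq, mem_iInter]
      rw [h4]
      exact (c.fin z v).isOpen_biInter fun a _ => (hC a).isOpen
    have h5 : {w : X × (T → Bool) | (w, v) ∈ partnerRel c ρ q0 i R z} =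
        {w : X × (T → Bool) | ((w.1, ρ w.2), v) ∈ R} ∩
        ({w : X × (T → Bool) | ((w.1, ρ w.2), z) ∈ R}ᶜ ∪
          {w : X × (T → Bool) | ∀ a, v ∈ c.V z a → w.2 (i a) = !(q0 (i a))}) := by
      ext w
      exact and_congr_right fun _ => imp_iff_not_or
    rw [h5]
    exact h1.inter (h2.isOpen_compl.union h3)
  · intro w
    by_cases hz : ((w.1, ρ w.2), z) ∈ R
    · exact ⟨z, hz, fun _ a ha => absurd ha (c.notMem z a)⟩
    · obtain ⟨v, hv⟩ := hR.ex (w.1, ρ w.2)
      exact ⟨v, hv, fun h => absurd h hz⟩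

/-- the value is forced over `(x, q0)` -/
theorem partnerRel_forced {X S T : Type u} [TopologicalSpace X] (ρ : (T → Bool) → S → Bool)
    (q0 : T → Bool) (i : c.I → T) (R : Set ((X × (S → Bool)) × Z)) (z v : Z) (x : X)
    (h1 : ((x, ρ q0), z) ∈ R) (h2 : ((x, q0), v) ∈ partnerRel c ρ q0 i R z) : v = z := by
  by_contra hv
  obtain ⟨a, ha⟩ := c.cover z v hv
  have h3 : q0 (i a) = !(q0 (i a)) := h2.2 h1 a ha
  revert h3
  cases q0 (i a) <;> simp

end Pool.Agent.VD
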