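import Pool.Agent.VD.TwDefs

set_option autoImplicit false

open Set TopologicalSpace

namespace Pool.Agent.VD

universe u

variable {Z : Type u} [TopologicalSpace Z] (c : Pieces Z)

/-- the tags of the next level from the old tags and the new columns -/
private def tup {n : ℕ} (x : (Tg c n ⊕ BigIdx Z (K c n) (Tg c n)) × Option c.I × ℕ) :
    Tg c (n + 1) := x

private theorem tup_inj {n : ℕ} : Function.Injective (tup c (n := n)) := fun _ _ h => h

theorem Tg_mono {n m : ℕ} (h : n ≤ m) : ∃ f : Tg c n → Tg c m, Function.Injective f := by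
  induction h with
  | refl => exact ⟨id, Function.injective_id⟩
  | step _ ih =>
    obtain ⟨f, hf⟩ := ih
    refine ⟨fun x => tup c (Sum.inl (f x), none, 0), fun x y hxy => ?_⟩
    have h1 := tup_inj c hxy
    exact hf (Sum.inl_injective (congrArg Prod.fst h1))

theorem Sm_idx (n : ℕ) : Sm c (BigIdx Z (K c n) (Tg c n)) := by
  refine ⟨n + 1, fun x => tup c (Sum.inr x, none, 0), fun x y hxy => ?_⟩
  have h1 := tup_inj c hxy
  exact Sum.inr_injective (congrArg Prod.fst h1)

/-- `J × c.I × ℕ` and similar types inject in the tags of the next level -/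
theorem Tg_prod {J : Type u} {n : ℕ} (f : J → Tg c n) (hf : Function.Injective f) :
    ∃ g : J × Option c.I × ℕ → Tg c (n + 1), Function.Injective g := by
  refine ⟨fun x => tup c (Sum.inl (f x.1), x.2), fun x y hxy => ?_⟩
  obtain ⟨h1, h2⟩ := Prod.mk.inj (tup_inj c hxy)
  exact Prod.ext (hf (Sum.inl_injective h1)) h2

end Pool.Agent.VD
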