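import Pool.Agent.VD.Defs

set_option autoImplicit false

open Set TopologicalSpace

namespace Pool.Agent.VD

universe u

/-- a level of the tower: the space and the tags for the next extension -/
structure Lvl where
  X : Type u
  top : TopologicalSpace X
  T : Type u

variable {Z : Type u} [TopologicalSpace Z] (c : Pieces Z)

/-- the next level: the generic extension; the new tags contain the old ones and the new columns -/
def nextLvl (L : Lvl.{u}) : Lvl.{u} :=
  letI := L.top
  { X := Big Z L.X L.T
    top := inferInstance
    T := (L.T ⊕ BigIdx Z L.X L.T) × Option c.I × ℕ }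

/-- the tower -/
def lvl : ℕ → Lvl.{u}
  | 0 => { X := PUnit, top := inferInstance, T := PUnit }
  | n + 1 => nextLvl c (lvl n)

/-- the spaces of the tower -/
def K (n : ℕ) : Type u := (lvl c n).X

instance (n : ℕ) : TopologicalSpace (K c n) := (lvl c n).top

/-- the tags of the tower -/
def Tg (n : ℕ) : Type u := (lvl c n).T

theorem K_zero : K c 0 = PUnit := rfl

theorem K_succ (n : ℕ) : K c (n + 1) = Big Z (K c n) (Tg c n) := rfl

theorem Tg_succ (n : ℕ) :
    Tg c (n + 1) = ((Tg c n ⊕ BigIdx Z (K c n) (Tg c n)) × Option c.I × ℕ) := rfl

/-- the projections of the tower -/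
def prj (n : ℕ) : K c (n + 1) → K c n := fun p =>
  base (X := K c n) (fun j : BigIdx Z (K c n) (Tg c n) => j.2) p

/-- `J` injects in the tags of some level -/
def Sm (J : Type u) : Prop := ∃ n, ∃ f : J → Tg c n, Function.Injective f

/-- the limit of the tower -/
def Lim : Type u := {x : ∀ n, K c n // ∀ n, prj c n (x (n + 1)) = x n}

instance : TopologicalSpace (Lim c) := by unfold Lim; infer_instance

/-- the projection from level `m` to level `n ≤ m` -/
noncomputable def down {n m : ℕ} (h : n ≤ m) : K c m → K c n :=
  Nat.leRec (motive := fun m _ => K c m → K c n) (fun x => x) (fun m _ f x => f (prj c m x)) h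

end Pool.Agent.VD
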