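import Pool.Agent.VD.Dn2

set_option autoImplicit false

open Set TopologicalSpace

namespace Pool.Agent.VD

universe u

variable {Z : Type u} [TopologicalSpace Z] (c : Pieces Z)

private theorem zz_prj {n : ℕ} (z : K c (n + 1)) : prj c n z = down c (Nat.le_succ n) z := by
  have h := down_succ c (le_refl n) z
  rw [down_refl] at h
  exact h.symm

private theorem zz_down {b : ℕ → ℕ} (hb : StrictMono b) (y : ∀ k, K c (b k))
    (hy : ∀ k, down c (hb (Nat.lt_succ_self k)).le (y (k + 1)) = y k) {k m : ℕ} (h : k ≤ m) :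
    down c (hb.monotone h) (y m) = y k := by
  induction m, h using Nat.le_induction with
  | base => exact down_refl c _ _
  | succ m hm ih =>
    have h1 := down_down c (hb.monotone hm) (hb (Nat.lt_succ_self m)).le (y (m + 1))
    rw [hy m, ih] at h1
    exact h1.symm

/-- the point of the limit given by a thread along a subsequence -/
private noncomputable def mkLim {b : ℕ → ℕ} (hb : StrictMono b) (y : ∀ k, K c (b k))
    (hy : ∀ k, down c (hb (Nat.lt_succ_self k)).le (y (k + 1)) = y k) : Lim c :=
  ⟨fun n => down c (hb.le_apply) (y n), fun n => by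
    rw [zz_prj, down_down]
    have h1 := down_down c (hb.le_apply (x := n)) (hb (Nat.lt_succ_self n)).le (y (n + 1))
    rw [hy n] at h1
    exact h1.symm⟩

private theorem mkLim_val {b : ℕ → ℕ} (hb : StrictMono b) (y : ∀ k, K c (b k))
    (hy : ∀ k, down c (hb (Nat.lt_succ_self k)).le (y (k + 1)) = y k) (n : ℕ) :
    (mkLim c hb y hy).1 n = down c (hb.le_apply) (y n) := rfl

private theorem mkLim_apply {b : ℕ → ℕ} (hb : StrictMono b) (y : ∀ k, K c (b k))
    (hy : ∀ k, down c (hb (Nat.lt_succ_self k)).le (y (k + 1)) = y k) (k : ℕ) :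
    (mkLim c hb y hy).1 (b k) = y k :=
  zz_down c hb y hy hb.le_apply

private theorem lim_continuous : ∀ n, Continuous (fun x : Lim c => x.1 n) := fun n =>
  (continuous_apply n).comp continuous_subtype_val

private theorem mkLim_continuous {b : ℕ → ℕ} (hb : StrictMono b) (y : Lim c → ∀ k, K c (b k))
    (hy : ∀ x k, down c (hb (Nat.lt_succ_self k)).le (y x (k + 1)) = y x k)
    (hc : ∀ k, Continuous fun x => y x k) : Continuous fun x => mkLim c hb (y x) (hy x) := by
  refine Continuous.subtype_mk ?_ _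
  exact continuous_pi fun n => (down_continuous c _).comp (hc n)

/-- The zigzag homeomorphism: `(h x) n = down (u n (x (a (n + 1))))`,
`(h⁻¹ y) n = down (v n (y (b n)))`. -/
theorem zigzag (p q : Lim c) (a b : ℕ → ℕ) (ha : StrictMono a) (hb : StrictMono b)
    (v : ∀ k, K c (b k) → K c (a k)) (u : ∀ k, K c (a (k + 1)) → K c (b k))
    (hv : ∀ k, Continuous (v k)) (hu : ∀ k, Continuous (u k))
    (h1 : ∀ k x, v k (u k x) = down c (ha (Nat.lt_succ_self k)).le x)
    (h2 : ∀ k x, u k (v (k + 1) x) = down c (hb (Nat.lt_succ_self k)).le x)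
    (h3 : ∀ k, u k (q.1 (a (k + 1))) = p.1 (b k)) :
    ∃ h : Lim c ≃ₜ Lim c, h q = p := by
  have hyu : ∀ (x : Lim c) (k : ℕ), down c (hb (Nat.lt_succ_self k)).le
      (u (k + 1) (x.1 (a (k + 1 + 1)))) = u k (x.1 (a (k + 1))) := by
    intro x k
    rw [← h2 k, h1 (k + 1), down_thread]
  have hyv : ∀ (x : Lim c) (k : ℕ), down c (ha (Nat.lt_succ_self k)).le
      (v (k + 1) (x.1 (b (k + 1)))) = v k (x.1 (b k)) := by
    intro x k
    rw [← h1 k, h2 k, down_thread]
  let f : Lim c → Lim c := fun x => mkLim c hb (fun k => u k (x.1 (a (k + 1)))) (hyu x)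
  let g : Lim c → Lim c := fun x => mkLim c ha (fun k => v k (x.1 (b k))) (hyv x)
  have hf : Continuous f := mkLim_continuous c hb _ hyu fun k =>
    (hu k).comp (lim_continuous c _)
  have hg : Continuous g := mkLim_continuous c ha _ hyv fun k =>
    (hv k).comp (lim_continuous c _)
  have hfb : ∀ x k, (f x).1 (b k) = u k (x.1 (a (k + 1))) := fun x k =>
    mkLim_apply c hb _ (hyu x) k
  have hga : ∀ x k, (g x).1 (a k) = v k (x.1 (b k)) := fun x k =>
    mkLim_apply c ha _ (hyv x) k
  have hgf : Function.LeftInverse g f := by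
    intro x
    apply Subtype.ext
    funext n
    show down c _ (v n ((f x).1 (b n))) = x.1 n
    rw [hfb, h1 n, down_down, down_thread]
  have hfg : Function.RightInverse g f := by
    intro x
    apply Subtype.ext
    funext n
    show down c _ (u n ((g x).1 (a (n + 1)))) = x.1 n
    rw [hga, h2 n, down_down, down_thread]
  refine ⟨⟨⟨f, g, hgf, hfg⟩, hf, hg⟩, ?_⟩
  apply Subtype.ext
  funext n
  show down c _ (u n (q.1 (a (n + 1)))) = p.1 n
  rw [h3 n, down_thread]

end Pool.Agent.VD
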